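import Mathlib

set_option autoImplicit false

namespace Pool.Agent.Helper221.Alloc

open Finset

open Classical in
/-- Balanced allocation of rows. -/
theorem alloc {ι : Type} [Fintype ι] (K : ℕ) (r : ι → ℕ) (hr : ∀ s, r s ≤ K) :
    ∃ R : ι → Finset (Fin K), (∀ s, (R s).card = r s) ∧
      ∃ v : ℕ, ∀ c : Fin K, (Finset.univ.filter (fun s => c ∈ R s)).card = v ∨
        (Finset.univ.filter (fun s => c ∈ R s)).card = v + 1 := by
  suffices H : ∀ T : Finset ι, ∃ R : ι → Finset (Fin K), (∀ s ∈ T, (R s).card = r s) ∧
      ∃ v : ℕ, ∀ c : Fin K, (T.filter (fun s => c ∈ R s)).card = v ∨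
        (T.filter (fun s => c ∈ R s)).card = v + 1 by
    obtain ⟨R, h1, v, h2⟩ := H Finset.univ
    exact ⟨R, fun s => h1 s (Finset.mem_univ _), v, h2⟩
  intro T
  induction T using Finset.induction_on with
  | empty =>
    refine ⟨fun _ => ∅, by simp, 0, by simp⟩
  | insert a T ha ih =>
    obtain ⟨R, hR, v, hv⟩ := ih
    set cnt : Fin K → ℕ := fun c => (T.filter (fun s => c ∈ R s)).card with hcnt
    set L : Finset (Fin K) := Finset.univ.filter (fun c => cnt c = v) with hL
    -- updated counts
    have hupd : ∀ (Ra : Finset (Fin K)) (c : Fin K),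
        ((insert a T).filter (fun s => c ∈ (Function.update R a Ra) s)).card = cnt c + (if c ∈ Ra then 1 else 0) := by
      intro Ra c
      rw [Finset.filter_insert]
      have h1 : T.filter (fun s => c ∈ (Function.update R a Ra) s) = T.filter (fun s => c ∈ R s) := by
        refine Finset.filter_congr fun s hs => ?_
        have : s ≠ a := by rintro rfl; exact ha hs
        rw [Function.update_of_ne this]
      rw [h1, Function.update_self]
      by_cases hc : c ∈ Ra
      · rw [if_pos hc, if_pos hc, Finset.card_insert_of_notMem]
        intro h; exact ha (Finset.mem_filter.mp h).1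
      · rw [if_neg hc, if_neg hc]; simp [hcnt]
    have hcards : ∀ (Ra : Finset (Fin K)), Ra.card = r a →
        ∀ s ∈ insert a T, ((Function.update R a Ra) s).card = r s := by
      intro Ra hRa s hs
      rw [Finset.mem_insert] at hs
      by_cases hsa : s = a
      · subst hsa; rw [Function.update_self]; exact hRa
      · rw [Function.update_of_ne hsa]
        exact hR s (hs.resolve_left hsa)
    rcases le_total (r a) L.card with hle | hle
    · obtain ⟨Ra, hRaL, hRac⟩ := Finset.exists_subset_card_eq hle
      refine ⟨Function.update R a Ra, hcards Ra hRac, v, ?_⟩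
      intro c
      rw [hupd]
      by_cases hc : c ∈ Ra
      · have : cnt c = v := by
          have := hRaL hc
          rw [hL, Finset.mem_filter] at this
          exact this.2
        rw [if_pos hc]; omega
      · rw [if_neg hc]
        have := hv c
        simp only [hcnt]; omega
    · obtain ⟨Ra, hLRa, _, hRac⟩ := Finset.exists_subsuperset_card_eq (Finset.subset_univ L) hle (by simpa using hr a)
      refine ⟨Function.update R a Ra, hcards Ra hRac, v + 1, ?_⟩
      intro c
      rw [hupd]
      by_cases hc : c ∈ Ra
      · rw [if_pos hc]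
        have := hv c
        simp only [hcnt]; omega
      · rw [if_neg hc]
        have h1 : c ∉ L := fun h => hc (hLRa h)
        have h2 : cnt c ≠ v := by
          intro h; apply h1; rw [hL, Finset.mem_filter]; exact ⟨Finset.mem_univ _, h⟩
        have := hv c
        simp only [hcnt] at h2 ⊢
        omega

open Classical in
lemma sum_rows {ι : Type} [Fintype ι] (K : ℕ) (R : ι → Finset (Fin K)) :
    ∑ c : Fin K, (Finset.univ.filter (fun s => c ∈ R s)).card = ∑ s, (R s).card := by
  simp_rw [Finset.card_filter]
  rw [Finset.sum_comm]
  refine Finset.sum_congr rfl fun s _ => ?_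
  rw [← Finset.card_filter]
  congr 1
  ext c; simp

end Pool.Agent.Helper221.Alloc
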