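import Pool.Agent.Helper221.Alloc

set_option autoImplicit false

namespace Pool.Agent.Helper221.Build

open Finset

abbrev Vt (m q K ρ : ℕ) : Type := (Bool × ((Fin m × Fin q) ⊕ (Fin K ⊕ Fin K))) ⊕ Fin ρ

def adj {m q K ρ : ℕ} (I D : Fin q → Fin q → Prop) (R : Fin m × Fin q → Finset (Fin K)) :
    Vt m q K ρ → Vt m q K ρ → Prop
  | .inl (b, .inl s), .inl (b', .inl t) =>
      (b = b' ∧ I s.2 t.2) ∨ (b ≠ b' ∧ D s.2 t.2 ∧ m ≤ s.1.val + t.1.val)
  | .inl (b, .inl s), .inl (b', .inr (.inl c)) => b = b' ∧ c ∈ R s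
  | .inl (b', .inr (.inl c)), .inl (b, .inl s) => b = b' ∧ c ∈ R s
  | .inl (b, .inl _), .inl (b', .inr (.inr _)) => b ≠ b'
  | .inl (b', .inr (.inr _)), .inl (b, .inl _) => b ≠ b'
  | .inl (b, .inr (.inl c)), .inl (b', .inr (.inr e)) => b = b' ∧ e ≤ c
  | .inl (b', .inr (.inr e)), .inl (b, .inr (.inl c)) => b = b' ∧ e ≤ c
  | .inl (b, .inr (.inl c)), .inr r => b = true ∧ r.val ≤ c.val
  | .inr r, .inl (b, .inr (.inl c)) => b = true ∧ r.val ≤ c.val
  | .inl (_, .inr (.inl _)), .inl (_, .inr (.inl _)) => False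
  | .inl (_, .inr (.inr _)), .inl (_, .inr (.inr _)) => False
  | .inl (_, .inr (.inr _)), .inr _ => False
  | .inr _, .inl (_, .inr (.inr _)) => False
  | .inl (_, .inl _), .inr _ => False
  | .inr _, .inl (_, .inl _) => False
  | .inr _, .inr _ => False

section
variable {m q K ρ : ℕ} (I D : Fin q → Fin q → Prop) (R : Fin m × Fin q → Finset (Fin K))

/-- the graph -/
def Gr (hIs : ∀ x y, I x y → I y x) (hDs : ∀ x y, D x y → D y x) (hIi : ∀ x, ¬ I x x) :
    SimpleGraph (Vt m q K ρ) where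
  Adj := adj I D R
  symm := ⟨by
    rintro (⟨b, (s | (c | e))⟩ | r) (⟨b', (t | (c' | e'))⟩ | r') h <;> simp only [adj] at h ⊢
    · rcases h with ⟨h1, h2⟩ | ⟨h1, h2, h3⟩
      · left; exact ⟨h1.symm, hIs _ _ h2⟩
      · right; exact ⟨h1.symm, hDs _ _ h2, by omega⟩
    all_goals exact h⟩
  loopless := ⟨by
    rintro (⟨b, (s | (c | e))⟩ | r) h <;> simp only [adj] at h
    rcases h with ⟨_, h2⟩ | ⟨h1, _⟩
    · exact hIi _ h2
    · exact h1 rfl⟩

/-- two adjacent neighbours of a vertex outside the big parts -/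
lemma tri_nonA (x y z : Vt m q K ρ) (hx : ∀ b s, x ≠ .inl (b, .inl s))
    (hxy : adj I D R x y) (hxz : adj I D R x z) (hyz : adj I D R y z) :
    ∃ b s t, y = .inl (b, .inl s) ∧ z = .inl (b, .inl t) ∧ I s.2 t.2 := by
  rcases x with ⟨b, (s | (c | e))⟩ | r
  · exact absurd rfl (hx b s)
  · rcases y with ⟨b', (s' | (c' | e'))⟩ | r' <;> rcases z with ⟨b'', (s'' | (c'' | e''))⟩ | r'' <;>
      simp only [adj] at hxy hxz hyz
    · rcases hyz with h | h
      · exact ⟨b', s', s'', rfl, by rw [h.1], h.2⟩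
      · exact absurd (hxy.1.trans hxz.1.symm) h.1
    · exact absurd (hxy.1.trans hxz.1) hyz
    · exact absurd (hxz.1.trans hxy.1) hyz
  · rcases y with ⟨b', (s' | (c' | e'))⟩ | r' <;> rcases z with ⟨b'', (s'' | (c'' | e''))⟩ | r'' <;>
      simp only [adj] at hxy hxz hyz
    · rcases hyz with h | h
      · exact ⟨b', s', s'', rfl, by rw [h.1], h.2⟩
      · exfalso
        have h1 := h.1
        cases b <;> cases b' <;> cases b'' <;> simp_all
    · exact absurd (hyz.1.trans hxz.1) hxy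
    · exact absurd (hyz.1.trans hxy.1) hxz
  · rcases y with ⟨b', (s' | (c' | e'))⟩ | r' <;> rcases z with ⟨b'', (s'' | (c'' | e''))⟩ | r'' <;>
      simp only [adj] at hxy hxz hyz

lemma no_K4
    (T1 : ∀ x y z, I x y → I y z → I x z → False)
    (T2 : ∀ x x' y y', I x x' → I y y' → D x y → D x y' → D x' y → D x' y' → False)
    (hDs : ∀ x y, D x y → D y x)
    (x y z w : Vt m q K ρ) (hxy : adj I D R x y) (hxz : adj I D R x z) (hxw : adj I D R x w)
    (hyz : adj I D R y z) (hyw : adj I D R y w) (hzw : adj I D R z w)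
    (hsymm : ∀ u v : Vt m q K ρ, adj I D R u v → adj I D R v u) : False := by
  have key : ∀ x y z w : Vt m q K ρ, (∀ b s, x ≠ .inl (b, .inl s)) → adj I D R x y → adj I D R x z →
      adj I D R x w → adj I D R y z → adj I D R y w → adj I D R z w → False := by
    intro x y z w hx hxy hxz hxw hyz hyw hzw
    obtain ⟨b, s, t, rfl, rfl, hst⟩ := tri_nonA I D R x y z hx hxy hxz hyz
    obtain ⟨b', s', t', h1, rfl, hst'⟩ := tri_nonA I D R x _ w hx hxy hxw hyw
    obtain ⟨b'', s'', t'', h1', h2', hst''⟩ := tri_nonA I D R x _ _ hx hxz hxw hzw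
    simp only [Sum.inl.injEq, Prod.mk.injEq] at h1 h1' h2'
    obtain ⟨_, rfl⟩ := h1
    obtain ⟨_, rfl⟩ := h1'
    obtain ⟨_, rfl⟩ := h2'
    exact T1 _ _ _ hst hst'' hst'
  by_cases hx : ∀ b s, x ≠ .inl (b, .inl s)
  · exact key x y z w hx hxy hxz hxw hyz hyw hzw
  by_cases hy : ∀ b s, y ≠ .inl (b, .inl s)
  · exact key y x z w hy (hsymm _ _ hxy) hyz hyw hxz hxw hzw
  by_cases hz : ∀ b s, z ≠ .inl (b, .inl s)
  · exact key z x y w hz (hsymm _ _ hxz) (hsymm _ _ hyz) hzw hxy hxw hyw
  by_cases hw : ∀ b s, w ≠ .inl (b, .inl s)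
  · exact key w x y z hw (hsymm _ _ hxw) (hsymm _ _ hyw) (hsymm _ _ hzw) hxy hxz hyz
  push Not at hx hy hz hw
  obtain ⟨b1, s1, rfl⟩ := hx
  obtain ⟨b2, s2, rfl⟩ := hy
  obtain ⟨b3, s3, rfl⟩ := hz
  obtain ⟨b4, s4, rfl⟩ := hw
  simp only [adj] at hxy hxz hxw hyz hyw hzw
  cases b1 <;> cases b2 <;> cases b3 <;> cases b4 <;> simp at hxy hxz hxw hyz hyw hzw
  · exact T1 _ _ _ hxy hyz hxz
  · exact T1 _ _ _ hxy hyz hxz
  · exact T1 _ _ _ hxy hyw hxw
  · exact T2 _ _ _ _ hxy hzw hxz.1 hxw.1 hyz.1 hyw.1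
  · exact T1 _ _ _ hxz hzw hxw
  · exact T2 _ _ _ _ hxz hyw hxy.1 hxw.1 (hDs _ _ hyz.1) hzw.1
  · exact T2 _ _ _ _ hxw hyz hxy.1 hxz.1 (hDs _ _ hyw.1) (hDs _ _ hzw.1)
  · exact T1 _ _ _ hyz hzw hyw
  · exact T1 _ _ _ hyz hzw hyw
  · exact T2 _ _ _ _ hxw hyz hxy.1 hxz.1 (hDs _ _ hyw.1) (hDs _ _ hzw.1)
  · exact T2 _ _ _ _ hxz hyw hxy.1 hxw.1 (hDs _ _ hyz.1) hzw.1
  · exact T1 _ _ _ hxz hzw hxw
  · exact T2 _ _ _ _ hxy hzw hxz.1 hxw.1 hyz.1 hyw.1
  · exact T1 _ _ _ hxy hyw hxw
  · exact T1 _ _ _ hxy hyz hxz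
  · exact T1 _ _ _ hxy hyz hxz


open Classical in
noncomputable def ind (p : Prop) : ℕ := if p then 1 else 0

lemma ind_false : ind False = 0 := by simp [ind]
lemma ind_true : ind True = 1 := by simp [ind]

lemma sum_ind {α : Type} [Fintype α] (p : α → Prop) [DecidablePred p] :
    ∑ a, ind (p a) = (Finset.univ.filter p).card := by
  rw [Finset.card_filter]
  refine Finset.sum_congr rfl fun a _ => ?_
  unfold ind
  by_cases h : p a
  · simp [h]
  · simp [h]

noncomputable def dg (x : Vt m q K ρ) : ℕ := ∑ y : Vt m q K ρ, ind (adj I D R x y)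

lemma card_ge (i : Fin m) : (Finset.univ.filter (fun j : Fin m => m ≤ i.val + j.val)).card = i.val := by
  have h : (Finset.univ.filter (fun j : Fin m => m ≤ i.val + j.val)).map Fin.valEmbedding = Finset.Ico (m - i.val) m := by
    ext j
    simp only [mem_map, mem_filter, mem_univ, true_and, Fin.valEmbedding_apply, mem_Ico]
    constructor
    · rintro ⟨a, ha, rfl⟩
      have := a.2
      omega
    · rintro ⟨h1, h2⟩
      refine ⟨⟨j, h2⟩, ?_, rfl⟩
      have := i.2
      simp only
      omega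
  rw [← Finset.card_map Fin.valEmbedding, h, Nat.card_Ico]
  have := i.2
  omega

open Classical in
lemma dg_A (b : Bool) (s : Fin m × Fin q) :
    dg I D R (.inl (b, .inl s) : Vt m q K ρ) =
      m * (Finset.univ.filter (fun y => I s.2 y)).card + s.1.val * (Finset.univ.filter (fun y => D s.2 y)).card +
        (R s).card + K := by
  unfold dg
  rw [Fintype.sum_sum_type, Fintype.sum_prod_type]
  rw [Fintype.sum_bool]
  simp_rw [Fintype.sum_sum_type]
  have h1 : ∑ t : Fin m × Fin q, ind (I s.2 t.2) = m * (Finset.univ.filter (fun y => I s.2 y)).card := by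
    rw [Fintype.sum_prod_type]
    simp only [sum_ind]
    rw [Finset.sum_const, Finset.card_univ, Fintype.card_fin, smul_eq_mul]
  have h2 : ∑ t : Fin m × Fin q, ind (D s.2 t.2 ∧ m ≤ s.1.val + t.1.val) =
      s.1.val * (Finset.univ.filter (fun y => D s.2 y)).card := by
    rw [Fintype.sum_prod_type]
    have : ∀ j : Fin m, ∑ y : Fin q, ind (D s.2 y ∧ m ≤ s.1.val + j.val) =
        if m ≤ s.1.val + j.val then (Finset.univ.filter (fun y => D s.2 y)).card else 0 := by
      intro j
      by_cases hj : m ≤ s.1.val + j.val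
      · simp only [hj, and_true, if_true]
        rw [sum_ind]
      · simp only [hj, and_false, if_false, ind_false, Finset.sum_const_zero]
    simp only [this]
    rw [← Finset.sum_filter, Finset.sum_const, smul_eq_mul]
    congr 1
    convert card_ge s.1
  have h3 : ∑ c : Fin K, ind (c ∈ R s) = (R s).card := by
    rw [sum_ind]; congr 1; ext c; simp
  cases b
  · simp only [adj, reduceCtorEq, false_and, ne_eq, not_false_eq_true, true_and, false_or, not_true_eq_false, or_false,
      ind_false, ind_true, Finset.sum_const_zero, Finset.sum_const, Finset.card_univ, Fintype.card_fin, smul_eq_mul, mul_one]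
    rw [h1, h2, h3]; ring
  · simp only [adj, reduceCtorEq, false_and, ne_eq, not_false_eq_true, true_and, false_or, not_true_eq_false, or_false,
      ind_false, ind_true, Finset.sum_const_zero, Finset.sum_const, Finset.card_univ, Fintype.card_fin, smul_eq_mul, mul_one]
    rw [h1, h2, h3]; ring

open Classical in
lemma dg_C (b : Bool) (c : Fin K) :
    dg I D R (.inl (b, .inr (.inl c)) : Vt m q K ρ) =
      (Finset.univ.filter (fun s => c ∈ R s)).card + (c.val + 1) +
        (if b then (Finset.univ.filter (fun r : Fin ρ => r.val ≤ c.val)).card else 0) := by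
  unfold dg
  rw [Fintype.sum_sum_type, Fintype.sum_prod_type, Fintype.sum_bool]
  simp_rw [Fintype.sum_sum_type]
  have h2 : ∑ e : Fin K, ind (e ≤ c) = c.val + 1 := by
    rw [sum_ind]
    have : Finset.univ.filter (fun e : Fin K => e ≤ c) = Finset.Iic c := by ext; simp
    rw [this, Fin.card_Iic]
  cases b
  · simp only [adj, reduceCtorEq, false_and, true_and,
      ind_false, ind_true, if_false, Finset.sum_const_zero, Bool.false_eq_true]
    rw [h2, sum_ind]; ring
  · simp only [adj, reduceCtorEq, false_and, true_and,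
      ind_false, ind_true, if_true, Finset.sum_const_zero]
    rw [h2, sum_ind, sum_ind]; ring

open Classical in
lemma dg_E (b : Bool) (e : Fin K) :
    dg I D R (.inl (b, .inr (.inr e)) : Vt m q K ρ) = m * q + (K - e.val) := by
  unfold dg
  rw [Fintype.sum_sum_type, Fintype.sum_prod_type, Fintype.sum_bool]
  simp_rw [Fintype.sum_sum_type]
  have h2 : ∑ c : Fin K, ind (e ≤ c) = K - e.val := by
    rw [sum_ind]
    have : Finset.univ.filter (fun c : Fin K => e ≤ c) = Finset.Ici e := by ext; simp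
    exact (congrArg Finset.card this).trans (Fin.card_Ici e)
  cases b
  · simp only [adj, reduceCtorEq, false_and, true_and, ne_eq, not_false_eq_true, not_true_eq_false,
      ind_false, ind_true, Finset.sum_const_zero, Finset.sum_const, Finset.card_univ, smul_eq_mul, mul_one]
    rw [h2]
    simp [Fintype.card_prod]
  · simp only [adj, reduceCtorEq, false_and, true_and, ne_eq, not_false_eq_true, not_true_eq_false,
      ind_false, ind_true, Finset.sum_const_zero, Finset.sum_const, Finset.card_univ, smul_eq_mul, mul_one]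
    rw [h2]
    simp [Fintype.card_prod, add_comm]

open Classical in
lemma dg_r (r : Fin ρ) :
    dg I D R (.inr r : Vt m q K ρ) = (Finset.univ.filter (fun c : Fin K => r.val ≤ c.val)).card := by
  unfold dg
  rw [Fintype.sum_sum_type, Fintype.sum_prod_type, Fintype.sum_bool]
  simp_rw [Fintype.sum_sum_type]
  simp only [adj, reduceCtorEq, false_and, true_and,
      ind_false, Finset.sum_const_zero, Bool.false_eq_true]
  rw [sum_ind]; ring

lemma card_r (r : ℕ) : (Finset.univ.filter (fun c : Fin K => r ≤ c.val)).card = K - r := by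
  have h : (Finset.univ.filter (fun c : Fin K => r ≤ c.val)).map Fin.valEmbedding = Finset.Ico r K := by
    ext j
    simp only [mem_map, mem_filter, mem_univ, true_and, Fin.valEmbedding_apply, mem_Ico]
    constructor
    · rintro ⟨a, ha, rfl⟩
      exact ⟨ha, a.2⟩
    · rintro ⟨h1, h2⟩
      exact ⟨⟨j, h2⟩, h1, rfl⟩
  rw [← Finset.card_map Fin.valEmbedding, h, Nat.card_Ico]

end

end Pool.Agent.Helper221.Build
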