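import Mathlib

set_option autoImplicit false

namespace Pool.Agent.Helper221.Circ

open Finset

section circle
variable {N : ℕ} [NeZero N]

noncomputable def cc (u : ZMod N) : ℝ := ((ZMod.toCircle u : Circle) : ℂ).re
noncomputable def ss (u : ZMod N) : ℝ := ((ZMod.toCircle u : Circle) : ℂ).im

lemma cc_sq_add (u : ZMod N) : cc u ^ 2 + ss u ^ 2 = 1 := by
  have h := Circle.normSq_coe (ZMod.toCircle u)
  rw [Complex.normSq_apply] at h
  unfold cc ss
  nlinarith

lemma cc_add (u v : ZMod N) : cc (u + v) = cc u * cc v - ss u * ss v := by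
  unfold cc ss
  rw [AddChar.map_add_eq_mul, Circle.coe_mul, Complex.mul_re]

lemma ss_add (u v : ZMod N) : ss (u + v) = cc u * ss v + ss u * cc v := by
  unfold cc ss
  rw [AddChar.map_add_eq_mul, Circle.coe_mul, Complex.mul_im]

lemma cc_zero : cc (0 : ZMod N) = 1 := by
  unfold cc
  rw [AddChar.map_zero_eq_one]; simp

lemma ss_zero : ss (0 : ZMod N) = 0 := by
  unfold ss
  rw [AddChar.map_zero_eq_one]; simp

lemma cc_neg (u : ZMod N) : cc (-u) = cc u := by
  unfold cc
  rw [AddChar.map_neg_eq_inv, Circle.coe_inv_eq_conj, Complex.conj_re]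

lemma ss_neg (u : ZMod N) : ss (-u) = - ss u := by
  unfold ss
  rw [AddChar.map_neg_eq_inv, Circle.coe_inv_eq_conj, Complex.conj_im]

lemma cc_sub (u v : ZMod N) : cc (u - v) = cc u * cc v + ss u * ss v := by
  rw [sub_eq_add_neg, cc_add, cc_neg, ss_neg]; ring

lemma cc_natCast (k : ℕ) : cc (k : ZMod N) = Real.cos (2 * Real.pi * k / N) := by
  unfold cc
  rw [ZMod.toCircle_natCast]
  have : (2 * (Real.pi : ℂ) * Complex.I * k / N) = ((2 * Real.pi * k / N : ℝ) : ℂ) * Complex.I := by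
    push_cast; ring
  rw [this, Complex.exp_ofReal_mul_I_re]

lemma ss_natCast (k : ℕ) : ss (k : ZMod N) = Real.sin (2 * Real.pi * k / N) := by
  unfold ss
  rw [ZMod.toCircle_natCast]
  have : (2 * (Real.pi : ℂ) * Complex.I * k / N) = ((2 * Real.pi * k / N : ℝ) : ℂ) * Complex.I := by
    push_cast; ring
  rw [this, Complex.exp_ofReal_mul_I_im]

lemma cc_le_one (u : ZMod N) : cc u ≤ 1 := by
  nlinarith [cc_sq_add u, sq_nonneg (ss u), sq_nonneg (cc u - 1)]

lemma neg_one_le_cc (u : ZMod N) : -1 ≤ cc u := by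
  nlinarith [cc_sq_add u, sq_nonneg (ss u), sq_nonneg (cc u + 1)]

/-- one step estimate -/
lemma step_sq (u : ZMod N) (v : ZMod N) (hv : v = 1 ∨ v = -1) (δ : ℝ) (hδ : δ = 2 * Real.pi / N)
    (x : ℝ) (hx0 : 0 ≤ x) (hx : x ≤ cc u - cc (u + v)) :
    x ^ 2 ≤ 4 * δ ^ 2 * (1 - cc u) + δ ^ 4 / 2 := by
  have hc1 : cc (1 : ZMod N) = Real.cos δ := by
    have := cc_natCast (N := N) 1
    simpa [hδ] using this
  have hs1 : ss (1 : ZMod N) = Real.sin δ := by
    have := ss_natCast (N := N) 1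
    simpa [hδ] using this
  have hδ0 : 0 ≤ δ := by rw [hδ]; positivity
  have hcos : 1 - δ ^ 2 / 2 ≤ Real.cos δ := Real.one_sub_sq_div_two_le_cos
  have hcos1 : Real.cos δ ≤ 1 := Real.cos_le_one δ
  have hsin : |Real.sin δ| ≤ δ := by
    have h := Real.abs_sin_le_abs (x := δ)
    rwa [abs_of_nonneg hδ0] at h
  have hsq : ss u ^ 2 ≤ 2 * (1 - cc u) := by
    nlinarith [cc_sq_add u, cc_le_one u, neg_one_le_cc u]
  have key : x ≤ δ ^ 2 / 2 + δ * |ss u| := by
    have h1 : cc u - cc (u + v) ≤ (1 - Real.cos δ) + |ss u| * |Real.sin δ| := by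
      rw [← abs_mul]
      have hcu := cc_le_one u
      have h3 := le_abs_self (ss u * Real.sin δ)
      have h4 := neg_abs_le (ss u * Real.sin δ)
      rcases hv with rfl | rfl
      · rw [cc_add, hc1, hs1]
        nlinarith
      · rw [cc_add, cc_neg, ss_neg, hc1, hs1]
        nlinarith
    have h2 : |ss u| * |Real.sin δ| ≤ |ss u| * δ := mul_le_mul_of_nonneg_left hsin (abs_nonneg _)
    nlinarith
  have hb : 0 ≤ δ ^ 2 / 2 + δ * |ss u| := by positivity
  have h5 : x ^ 2 ≤ (δ ^ 2 / 2 + δ * |ss u|) ^ 2 := pow_le_pow_left₀ hx0 key 2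
  have h6 : (δ ^ 2 / 2 + δ * |ss u|) ^ 2 ≤ 2 * ((δ ^ 2 / 2) ^ 2 + (δ * |ss u|) ^ 2) := by
    nlinarith [sq_nonneg (δ ^ 2 / 2 - δ * |ss u|)]
  have h7 : (δ * |ss u|) ^ 2 = δ ^ 2 * ss u ^ 2 := by rw [mul_pow, sq_abs]
  rw [h7] at h6
  have h8 : δ ^ 2 * ss u ^ 2 ≤ δ ^ 2 * (2 * (1 - cc u)) := mul_le_mul_of_nonneg_left hsq (sq_nonneg _)
  nlinarith

end circle

section quarter
variable {k : ℕ} [NeZero (4 * k)]

lemma cc_quarter : cc ((k : ℕ) : ZMod (4 * k)) = 0 := by
  rw [cc_natCast]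
  have hk : (k : ℝ) ≠ 0 := by
    have := NeZero.ne (4 * k)
    have : k ≠ 0 := by intro h; apply this; rw [h, Nat.mul_zero]
    exact_mod_cast this
  have : 2 * Real.pi * (k : ℝ) / ((4 * k : ℕ) : ℝ) = Real.pi / 2 := by
    push_cast; field_simp; ring
  rw [this, Real.cos_pi_div_two]

lemma ss_quarter : ss ((k : ℕ) : ZMod (4 * k)) = 1 := by
  rw [ss_natCast]
  have hk : (k : ℝ) ≠ 0 := by
    have := NeZero.ne (4 * k)
    have : k ≠ 0 := by intro h; apply this; rw [h, Nat.mul_zero]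
    exact_mod_cast this
  have : 2 * Real.pi * (k : ℝ) / ((4 * k : ℕ) : ℝ) = Real.pi / 2 := by
    push_cast; field_simp; ring
  rw [this, Real.sin_pi_div_two]

lemma cc_add_quarter (u : ZMod (4 * k)) : cc (u + (k : ZMod (4 * k))) = - ss u := by
  rw [cc_add, cc_quarter, ss_quarter]; ring

lemma ss_add_quarter (u : ZMod (4 * k)) : ss (u + (k : ZMod (4 * k))) = cc u := by
  rw [ss_add, cc_quarter, ss_quarter]; ring

lemma cc_sub_quarter (u : ZMod (4 * k)) : cc (u - (k : ZMod (4 * k))) = ss u := by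
  rw [cc_sub, cc_quarter, ss_quarter]; ring

lemma ss_sub_quarter (u : ZMod (4 * k)) : ss (u - (k : ZMod (4 * k))) = - cc u := by
  rw [sub_eq_add_neg, ss_add, cc_neg, ss_neg, cc_quarter, ss_quarter]; ring

/-- antipode -/
lemma cc_add_half (u : ZMod (4 * k)) : cc (u + (k : ZMod (4 * k)) + (k : ZMod (4 * k))) = - cc u := by
  rw [cc_add_quarter, ss_add_quarter]

/-- quadrants 0 and 2 -/
def QH (u : ZMod (4 * k)) : Prop := (0 < cc u ∧ 0 ≤ ss u) ∨ (cc u < 0 ∧ ss u ≤ 0)

open Classical in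
noncomputable def partner (u : ZMod (4 * k)) : ZMod (4 * k) :=
  if QH u then u + (k : ZMod (4 * k)) else u - (k : ZMod (4 * k))

lemma QH_add (u : ZMod (4 * k)) : QH (u + (k : ZMod (4 * k))) ↔ ¬ QH u := by
  unfold QH
  rw [cc_add_quarter, ss_add_quarter]
  have h := cc_sq_add u
  constructor
  · rintro (⟨h1, h2⟩ | ⟨h1, h2⟩) (⟨h3, h4⟩ | ⟨h3, h4⟩) <;> linarith
  · intro hn
    push Not at hn
    obtain ⟨h1, h2⟩ := hn
    rcases lt_trichotomy (cc u) 0 with hc | hc | hc
    · right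
      have := h2 hc
      exact ⟨by linarith, hc.le⟩
    · have hs : ss u ≠ 0 := by
        intro hs; rw [hc, hs] at h; norm_num at h
      rcases lt_or_gt_of_ne hs with hs | hs
      · left; exact ⟨by linarith, hc.ge⟩
      · right; exact ⟨by linarith, hc.le⟩
    · left
      have := h1 hc
      exact ⟨by linarith, hc.le⟩

lemma partner_partner (u : ZMod (4 * k)) : partner (partner u) = u := by
  unfold partner
  by_cases h : QH u
  · have h2 : ¬ QH (u + (k : ZMod (4 * k))) := by rw [QH_add]; simpa using h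
    simp only [h, if_true, h2, if_false]
    ring
  · have h2 : QH (u - (k : ZMod (4 * k))) := by
      by_contra hc
      rw [← QH_add] at hc
      rw [sub_add_cancel] at hc
      exact h hc
    simp only [h, if_false, h2, if_true]
    ring

lemma partner_diff (u : ZMod (4 * k)) : 1 ≤ |cc u - cc (partner u)| := by
  have h := cc_sq_add u
  unfold partner
  by_cases hq : QH u
  · simp only [hq, if_true]
    rw [cc_add_quarter]
    have hprod : 0 ≤ cc u * ss u := by
      rcases hq with ⟨h1, h2⟩ | ⟨h1, h2⟩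
      · positivity
      · nlinarith
    have : 1 ≤ (cc u - -ss u) ^ 2 := by nlinarith
    rw [← sq_abs] at this
    nlinarith [abs_nonneg (cc u - -ss u)]
  · simp only [hq, if_false]
    rw [cc_sub_quarter]
    have hprod : cc u * ss u ≤ 0 := by
      have h2 := (QH_add u).mpr hq
      unfold QH at h2
      rw [cc_add_quarter, ss_add_quarter] at h2
      rcases h2 with ⟨h1, h2⟩ | ⟨h1, h2⟩
      · nlinarith
      · nlinarith
    have : 1 ≤ (cc u - ss u) ^ 2 := by nlinarith
    rw [← sq_abs] at this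
    nlinarith [abs_nonneg (cc u - ss u)]

lemma partner_ne (u : ZMod (4 * k)) : cc (partner u) ≠ cc u := by
  intro h
  have := partner_diff u
  rw [h] at this
  norm_num at this

end quarter

end Pool.Agent.Helper221.Circ
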