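import Mathlib

set_option autoImplicit false

namespace Pool.Agent.Helper221.Poin

open Finset

/-- variance functional -/
noncomputable def V {α : Type} [Fintype α] (f : α → ℝ) : ℝ :=
  (Fintype.card α : ℝ) * ∑ a, f a ^ 2 - (∑ a, f a) ^ 2

lemma two_V {α : Type} [Fintype α] (f : α → ℝ) : 2 * V f = ∑ a, ∑ b, (f a - f b) ^ 2 := by
  unfold V
  have h : ∀ a b, (f a - f b) ^ 2 = f a ^ 2 - 2 * f a * f b + f b ^ 2 := by intro a b; ring
  simp_rw [h, Finset.sum_add_distrib, Finset.sum_sub_distrib]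
  simp only [Finset.sum_const, Finset.card_univ, nsmul_eq_mul]
  simp_rw [mul_assoc, ← Finset.mul_sum]
  rw [← Finset.sum_mul]
  ring

lemma V_sum {α β : Type} [Fintype α] [Fintype β] (F : α → β → ℝ) :
    V (fun b => ∑ a, F a b) ≤ (Fintype.card α : ℝ) * ∑ a, V (F a) := by
  have h1 := two_V (fun b => ∑ a, F a b)
  have h2 : ∑ b, ∑ b', (∑ a, F a b - ∑ a, F a b') ^ 2 ≤
      ∑ b, ∑ b', (Fintype.card α : ℝ) * ∑ a, (F a b - F a b') ^ 2 := by
    refine Finset.sum_le_sum fun b _ => Finset.sum_le_sum fun b' _ => ?_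
    rw [← Finset.sum_sub_distrib]
    have := sq_sum_le_card_mul_sum_sq (s := (Finset.univ : Finset α)) (f := fun a => F a b - F a b')
    simpa using this
  have h3 : ∑ b, ∑ b', (Fintype.card α : ℝ) * ∑ a, (F a b - F a b') ^ 2 =
      (Fintype.card α : ℝ) * ∑ a, 2 * V (F a) := by
    simp_rw [two_V, ← Finset.mul_sum]
    congr 1
    have : ∀ b : β, ∑ b', ∑ a, (F a b - F a b') ^ 2 = ∑ a, ∑ b', (F a b - F a b') ^ 2 := by
      intro b; exact Finset.sum_comm
    simp_rw [this]
    rw [Finset.sum_comm]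
  rw [← Finset.mul_sum] at h3
  linarith

lemma V_prod {α β : Type} [Fintype α] [Fintype β] (F : α → β → ℝ) :
    V (fun p : α × β => F p.1 p.2) =
      (Fintype.card β : ℝ) * ∑ b, V (fun a => F a b) + V (fun b => ∑ a, F a b) := by
  unfold V
  rw [Fintype.sum_prod_type_right, Fintype.sum_prod_type_right, Fintype.card_prod]
  push_cast
  simp_rw [Finset.sum_sub_distrib, ← Finset.mul_sum]
  ring

lemma V_prod_le {α β : Type} [Fintype α] [Fintype β] (F : α → β → ℝ) :
    V (fun p : α × β => F p.1 p.2) ≤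
      (Fintype.card β : ℝ) * ∑ b, V (fun a => F a b) + (Fintype.card α : ℝ) * ∑ a, V (F a) := by
  rw [V_prod]
  have := V_sum F
  linarith

lemma V_zmod {N : ℕ} [NeZero N] (g : ZMod N → ℝ) :
    V g ≤ (N : ℝ) ^ 2 / 2 * N * ∑ z, (g (z + 1) - g z) ^ 2 := by
  set E := ∑ z, (g (z + 1) - g z) ^ 2 with hE
  have hpair : ∀ a b, (g a - g b) ^ 2 ≤ N * E := by
    intro a b
    set k := (a - b).val with hk
    have hkN : k < N := ZMod.val_lt _
    have ha : a = b + (k : ZMod N) := by
      rw [hk, ZMod.natCast_zmod_val]; ring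
    have htel : ∀ j : ℕ, g (b + (j : ZMod N)) - g b = ∑ i ∈ Finset.range j, (g (b + (i : ZMod N) + 1) - g (b + (i : ZMod N))) := by
      intro j
      induction j with
      | zero => simp
      | succ j ih =>
        rw [Finset.sum_range_succ, ← ih]
        push_cast
        rw [add_assoc b]
        ring
    rw [ha, htel k]
    have h1 := sq_sum_le_card_mul_sum_sq (s := Finset.range k)
      (f := fun i => g (b + ((i : ℕ) : ZMod N) + 1) - g (b + (i : ZMod N)))
    have h2 : ∑ i ∈ Finset.range k, (g (b + ((i : ℕ) : ZMod N) + 1) - g (b + (i : ZMod N))) ^ 2 ≤ E := by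
      have hinj : Set.InjOn (fun i : ℕ => b + (i : ZMod N)) (Finset.range k : Finset ℕ) := by
        intro i hi j hj hij
        simp only [Finset.coe_range, Set.mem_Iio] at hi hj
        have h3 : (i : ZMod N) = (j : ZMod N) := by simpa using hij
        rw [ZMod.natCast_eq_natCast_iff'] at h3
        rwa [Nat.mod_eq_of_lt (by omega), Nat.mod_eq_of_lt (by omega)] at h3
      rw [hE, ← Finset.sum_image (f := fun z => (g (z + 1) - g z) ^ 2) hinj]
      exact Finset.sum_le_univ_sum_of_nonneg (fun z => sq_nonneg _)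
    have h3 : ((Finset.range k).card : ℝ) ≤ N := by
      rw [Finset.card_range]; exact_mod_cast hkN.le
    have hE0 : 0 ≤ E := Finset.sum_nonneg fun z _ => sq_nonneg _
    have hs0 : 0 ≤ ∑ i ∈ Finset.range k, (g (b + ((i : ℕ) : ZMod N) + 1) - g (b + (i : ZMod N))) ^ 2 :=
      Finset.sum_nonneg fun z _ => sq_nonneg _
    calc _ ≤ _ := h1
      _ ≤ (N : ℝ) * E := mul_le_mul h3 h2 hs0 (Nat.cast_nonneg _)
  have h1 := two_V g
  have h2 : ∑ a, ∑ b, (g a - g b) ^ 2 ≤ ∑ a : ZMod N, ∑ b : ZMod N, (N * E : ℝ) :=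
    Finset.sum_le_sum fun a _ => Finset.sum_le_sum fun b _ => hpair a b
  simp only [Finset.sum_const, Finset.card_univ, nsmul_eq_mul, ZMod.card] at h2
  nlinarith

/-- energy on the discrete torus -/
noncomputable def En {N : ℕ} [NeZero N] {h : ℕ} (f : (Fin h → ZMod N) → ℝ) : ℝ :=
  ∑ j : Fin h, ∑ x : Fin h → ZMod N, (f (x + Pi.single j 1) - f x) ^ 2

lemma sum_cons {N : ℕ} [NeZero N] {h : ℕ} (f : (Fin (h + 1) → ZMod N) → ℝ) :
    ∑ y, f y = ∑ a : ZMod N, ∑ x : Fin h → ZMod N, f (Fin.cons a x) := by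
  rw [← Fintype.sum_prod_type' (fun (a : ZMod N) (x : Fin h → ZMod N) => f (Fin.cons a x))]
  exact (Fintype.sum_equiv (Fin.consEquiv (fun _ => ZMod N)) _ _ (fun p => rfl)).symm

lemma V_cons {N : ℕ} [NeZero N] {h : ℕ} (f : (Fin (h + 1) → ZMod N) → ℝ) :
    V f = V (fun p : ZMod N × (Fin h → ZMod N) => f (Fin.cons p.1 p.2)) := by
  unfold V
  rw [Fintype.sum_prod_type, Fintype.sum_prod_type]
  have h1 := sum_cons f
  have h2 := sum_cons (fun y => f y ^ 2)
  rw [h1, h2]
  congr 2
  simp [Fintype.card_prod, pow_succ, mul_comm]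

theorem poincare {N : ℕ} [NeZero N] : ∀ {h : ℕ} (f : (Fin h → ZMod N) → ℝ),
    V f ≤ (N : ℝ) ^ 2 / 2 * (N : ℝ) ^ h * En f := by
  intro h
  induction h with
  | zero =>
    intro f
    unfold V En
    simp
  | succ h ih =>
    intro f
    rw [V_cons]
    have h1 := V_prod_le (fun (a : ZMod N) (x : Fin h → ZMod N) => f (Fin.cons a x))
    have h2 : ∀ x : Fin h → ZMod N, V (fun a : ZMod N => f (Fin.cons a x)) ≤
        (N : ℝ) ^ 2 / 2 * N * ∑ z, (f (Fin.cons (z + 1) x) - f (Fin.cons z x)) ^ 2 :=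
      fun x => V_zmod (fun a : ZMod N => f (Fin.cons a x))
    have h3 : ∀ a : ZMod N, V (fun x : Fin h → ZMod N => f (Fin.cons a x)) ≤
        (N : ℝ) ^ 2 / 2 * (N : ℝ) ^ h * En (fun x : Fin h → ZMod N => f (Fin.cons a x)) :=
      fun a => ih _
    have hE : En f = (∑ x : Fin h → ZMod N, ∑ z, (f (Fin.cons (z + 1) x) - f (Fin.cons z x)) ^ 2) +
        ∑ a : ZMod N, En (fun x : Fin h → ZMod N => f (Fin.cons a x)) := by
      unfold En
      rw [Fin.sum_univ_succ]
      congr 1
      · rw [sum_cons, Finset.sum_comm]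
        refine Finset.sum_congr rfl fun x _ => Finset.sum_congr rfl fun a _ => ?_
        congr 3
        funext i
        refine Fin.cases ?_ (fun i => ?_) i
        · simp
        · simp [Fin.succ_ne_zero]
      · have e1 : ∀ j : Fin h, ∑ y : Fin (h + 1) → ZMod N, (f (y + Pi.single j.succ 1) - f y) ^ 2 =
            ∑ a : ZMod N, ∑ x : Fin h → ZMod N,
              (f (Fin.cons a (x + Pi.single j 1)) - f (Fin.cons a x)) ^ 2 := by
          intro j
          rw [sum_cons]
          refine Finset.sum_congr rfl fun a _ => Finset.sum_congr rfl fun x _ => ?_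
          congr 3
          funext i
          refine Fin.cases ?_ (fun i => ?_) i
          · simp [(Fin.succ_ne_zero _).symm]
          · by_cases hij : i = j
            · subst hij; simp
            · simp [hij]
        rw [Finset.sum_congr rfl (fun j _ => e1 j)]
        exact Finset.sum_comm
    have hcard : (Fintype.card (Fin h → ZMod N) : ℝ) = (N : ℝ) ^ h := by simp
    have hcard2 : (Fintype.card (ZMod N) : ℝ) = (N : ℝ) := by simp
    rw [hcard, hcard2] at h1
    have h4 := Finset.sum_le_sum (s := (Finset.univ : Finset (Fin h → ZMod N))) fun x _ => h2 x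
    have h5 := Finset.sum_le_sum (s := (Finset.univ : Finset (ZMod N))) fun a _ => h3 a
    rw [← Finset.mul_sum] at h4 h5
    have hN : (0 : ℝ) ≤ (N : ℝ) ^ h := by positivity
    have hN' : (0 : ℝ) ≤ (N : ℝ) := by positivity
    have h6 := mul_le_mul_of_nonneg_left h4 hN
    have h7 := mul_le_mul_of_nonneg_left h5 hN'
    rw [hE]
    calc _ ≤ _ := h1
      _ ≤ _ := add_le_add h6 h7
      _ = _ := by ring

end Pool.Agent.Helper221.Poin
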