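import Pool.Agent.Helper221.Circ
import Pool.Agent.Helper221.Poin

set_option autoImplicit false

namespace Pool.Agent.Helper221.Conc

open Finset Pool.Agent.Helper221.Circ Pool.Agent.Helper221.Poin

noncomputable def ip {N h : ℕ} [NeZero N] (x : Fin h → ZMod N) : ℝ := ∑ j, cc (x j)

lemma ip_le {N h : ℕ} [NeZero N] (x : Fin h → ZMod N) : ip x ≤ h := by
  unfold ip
  calc ∑ j, cc (x j) ≤ ∑ j : Fin h, (1 : ℝ) := Finset.sum_le_sum fun j _ => cc_le_one _
    _ = h := by simp

lemma neg_le_ip {N h : ℕ} [NeZero N] (x : Fin h → ZMod N) : -(h : ℝ) ≤ ip x := by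
  unfold ip
  calc -(h : ℝ) = ∑ j : Fin h, (-1 : ℝ) := by simp
    _ ≤ ∑ j, cc (x j) := Finset.sum_le_sum fun j _ => neg_one_le_cc _

lemma ip_zero {N h : ℕ} [NeZero N] : ip (0 : Fin h → ZMod N) = h := by
  unfold ip
  simp [cc_zero]

lemma ip_neg {N h : ℕ} [NeZero N] (x : Fin h → ZMod N) : ip (-x) = ip x := by
  unfold ip
  simp [cc_neg]

section
variable {N h : ℕ} [NeZero N] (S : Finset (Fin h → ZMod N)) (hne : S.Nonempty)

noncomputable def g (x : Fin h → ZMod N) : ℝ := S.inf' hne (fun s => (h : ℝ) - ip (x - s))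

lemma exists_arg (x : Fin h → ZMod N) : ∃ s ∈ S, g S hne x = (h : ℝ) - ip (x - s) := by
  obtain ⟨s, hs, h⟩ := Finset.exists_mem_eq_inf' hne (fun s => (h : ℝ) - ip (x - s))
  exact ⟨s, hs, h⟩

lemma g_le (x s : Fin h → ZMod N) (hs : s ∈ S) : g S hne x ≤ (h : ℝ) - ip (x - s) :=
  Finset.inf'_le _ hs

lemma g_nonneg (x : Fin h → ZMod N) : 0 ≤ g S hne x := by
  obtain ⟨s, hs, h⟩ := exists_arg S hne x
  rw [h]
  have := ip_le (x - s)
  linarith

lemma ip_add_single (x : Fin h → ZMod N) (j : Fin h) (v : ZMod N) :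
    ip x - ip (x + Pi.single j v) = cc (x j) - cc (x j + v) := by
  unfold ip
  rw [← Finset.sum_sub_distrib]
  rw [Finset.sum_eq_single j]
  · simp
  · intro i _ hij
    simp [hij]
  · intro h; exact absurd (Finset.mem_univ _) h

/-- Energy bound for the squared distance function. -/
lemma En_le (δ : ℝ) (hδ : δ = 2 * Real.pi / N) :
    En (g S hne) ≤ 8 * δ ^ 2 * (∑ x, g S hne x) + (N : ℝ) ^ h * h * δ ^ 4 := by
  classical
  choose s hs hgs using exists_arg S hne
  let P : (Fin h → ZMod N) → Fin h → ℝ := fun x j => 4 * δ ^ 2 * (1 - cc (x j - s x j)) + δ ^ 4 / 2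
  have hP0 : ∀ x j, 0 ≤ P x j := by
    intro x j
    have := cc_le_one (x j - s x j)
    have h1 : 0 ≤ 1 - cc (x j - s x j) := by linarith
    positivity
  have hone : ∀ (v : ZMod N), (v = 1 ∨ v = -1) → ∀ x j,
      0 ≤ g S hne (x + Pi.single j v) - g S hne x →
      (g S hne (x + Pi.single j v) - g S hne x) ^ 2 ≤ P x j := by
    intro v hv x j h0
    have h1 : g S hne (x + Pi.single j v) ≤ (h : ℝ) - ip (x + Pi.single j v - s x) := g_le S hne _ _ (hs x)
    have h2 : x + Pi.single j v - s x = (x - s x) + Pi.single j v := by abel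
    have h3 := ip_add_single (x - s x) j v
    rw [h2] at h1
    have h4 : g S hne (x + Pi.single j v) - g S hne x ≤ cc ((x - s x) j) - cc ((x - s x) j + v) := by
      rw [hgs x]
      linarith
    exact step_sq _ v hv δ hδ _ h0 h4
  have hboth : ∀ x j, (g S hne (x + Pi.single j 1) - g S hne x) ^ 2 ≤ P x j + P (x + Pi.single j 1) j := by
    intro x j
    rcases le_total 0 (g S hne (x + Pi.single j 1) - g S hne x) with h0 | h0
    · have := hone 1 (Or.inl rfl) x j h0
      have := hP0 (x + Pi.single j 1) j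
      linarith
    · have h1 : x + Pi.single j 1 + Pi.single j (-1) = x := by
        rw [add_assoc, ← Pi.single_add]; simp
      have h2 := hone (-1) (Or.inr rfl) (x + Pi.single j 1) j (by rw [h1]; linarith)
      rw [h1] at h2
      have h3 := hP0 x j
      have h4 : (g S hne (x + Pi.single j 1) - g S hne x) ^ 2 = (g S hne x - g S hne (x + Pi.single j 1)) ^ 2 := by ring
      linarith
  have hshift : ∀ j : Fin h, ∑ x : Fin h → ZMod N, P (x + Pi.single j 1) j = ∑ x : Fin h → ZMod N, P x j := by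
    intro j
    exact Equiv.sum_comp (Equiv.addRight (Pi.single j (1 : ZMod N) : Fin h → ZMod N)) (fun x => P x j)
  have hsumP : ∀ x, ∑ j, P x j = 4 * δ ^ 2 * g S hne x + h * (δ ^ 4 / 2) := by
    intro x
    simp only [P]
    rw [Finset.sum_add_distrib, ← Finset.mul_sum, Finset.sum_sub_distrib]
    simp only [Finset.sum_const, Finset.card_univ, Fintype.card_fin, nsmul_eq_mul, mul_one]
    rw [hgs x]
    rfl
  unfold En
  calc ∑ j : Fin h, ∑ x, (g S hne (x + Pi.single j 1) - g S hne x) ^ 2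
      ≤ ∑ j : Fin h, ∑ x, (P x j + P (x + Pi.single j 1) j) :=
        Finset.sum_le_sum fun j _ => Finset.sum_le_sum fun x _ => hboth x j
    _ = ∑ j : Fin h, 2 * ∑ x, P x j := by
        refine Finset.sum_congr rfl fun j _ => ?_
        rw [Finset.sum_add_distrib, hshift]; ring
    _ = 2 * ∑ x, ∑ j, P x j := by rw [← Finset.mul_sum, Finset.sum_comm]
    _ = 2 * ∑ x, (4 * δ ^ 2 * g S hne x + h * (δ ^ 4 / 2)) := by simp_rw [hsumP]
    _ = 8 * δ ^ 2 * (∑ x, g S hne x) + (N : ℝ) ^ h * h * δ ^ 4 := by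
        rw [Finset.sum_add_distrib, ← Finset.mul_sum]
        simp only [Finset.sum_const, Finset.card_univ, nsmul_eq_mul]
        have : (Fintype.card (Fin h → ZMod N) : ℝ) = (N : ℝ) ^ h := by simp
        rw [this]
        ring

end

theorem conc {N h : ℕ} [NeZero N] (hk : h ≤ N ^ 2) (a0 : ZMod N) (ha0 : ∀ u : ZMod N, cc (u + a0) = - cc u)
    (ε : ℝ) (hε0 : 0 < ε) (hε : ε ≤ 1)
    (D : ℝ) (hD : 400 / ε ≤ D) (S : Finset (Fin h → ZMod N))
    (hS : ε * ((N : ℝ) ^ h) ≤ S.card) :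
    ∃ s ∈ S, ∃ s' ∈ S, ip (s - s') < -h + D := by
  classical
  by_contra hcon
  push Not at hcon
  have hNpos : (0 : ℝ) < N := by
    have := NeZero.ne N
    exact_mod_cast Nat.pos_of_ne_zero this
  set q : ℝ := (N : ℝ) ^ h with hq
  have hqpos : 0 < q := by positivity
  have hScard : (0 : ℝ) < (S.card : ℝ) := lt_of_lt_of_le (mul_pos hε0 hqpos) hS
  have hne : S.Nonempty := by
    rw [← Finset.card_pos]; exact_mod_cast hScard
  set δ : ℝ := 2 * Real.pi / N with hδ
  have hEn := En_le S hne δ hδ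
  have hpo := poincare (g S hne)
  set G : ℝ := ∑ x, g S hne x with hG
  set μ : ℝ := G / q with hμ
  have hG0 : 0 ≤ G := Finset.sum_nonneg fun x _ => g_nonneg S hne x
  have hμ0 : 0 ≤ μ := by positivity
  have hGμ : G = q * μ := by rw [hμ]; field_simp
  -- sum of squared deviations
  have hdev : ∑ x, (g S hne x - μ) ^ 2 ≤ q * (160 * μ + 800) := by
    have hcard : (Fintype.card (Fin h → ZMod N) : ℝ) = q := by simp [hq]
    have h1 : ∑ x, (g S hne x - μ) ^ 2 = (∑ x, g S hne x ^ 2) - q * μ ^ 2 := by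
      have : ∀ x, (g S hne x - μ) ^ 2 = g S hne x ^ 2 - 2 * μ * g S hne x + μ ^ 2 := by intro x; ring
      simp_rw [this, Finset.sum_add_distrib, Finset.sum_sub_distrib]
      rw [← Finset.mul_sum]
      simp only [Finset.sum_const, Finset.card_univ, nsmul_eq_mul, hcard]
      rw [← hG, hGμ]; ring
    have h2 : V (g S hne) = q * ((∑ x, g S hne x ^ 2) - q * μ ^ 2) := by
      unfold V
      rw [hcard, ← hG, hGμ]; ring
    rw [← h1] at h2
    have h3 : q * ∑ x, (g S hne x - μ) ^ 2 ≤ q * ((N : ℝ) ^ 2 / 2 * En (g S hne)) := by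
      rw [← h2]
      calc V (g S hne) ≤ (N : ℝ) ^ 2 / 2 * (N : ℝ) ^ h * En (g S hne) := hpo
        _ = q * ((N : ℝ) ^ 2 / 2 * En (g S hne)) := by rw [hq]; ring
    have h4 : ∑ x, (g S hne x - μ) ^ 2 ≤ (N : ℝ) ^ 2 / 2 * En (g S hne) := le_of_mul_le_mul_left h3 hqpos
    have h5 : (N : ℝ) ^ 2 / 2 * En (g S hne) ≤ (N : ℝ) ^ 2 / 2 * (8 * δ ^ 2 * G + (N : ℝ) ^ h * h * δ ^ 4) :=
      mul_le_mul_of_nonneg_left hEn (by positivity)
    have hNδ : (N : ℝ) * δ = 2 * Real.pi := by rw [hδ]; field_simp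
    have hpi : Real.pi ^ 2 ≤ 10 := by
      have h1 := Real.pi_lt_d2
      have h2 := Real.pi_pos
      nlinarith
    have hh : (h : ℝ) ≤ (N : ℝ) ^ 2 := by exact_mod_cast hk
    have h6 : (N : ℝ) ^ 2 / 2 * (8 * δ ^ 2 * G + (N : ℝ) ^ h * h * δ ^ 4) =
        q * (16 * Real.pi ^ 2 * μ + 2 * Real.pi ^ 2 * (h * δ ^ 2)) := by
      rw [hGμ, ← hq]
      have : (N : ℝ) ^ 2 * δ ^ 2 = 4 * Real.pi ^ 2 := by rw [← mul_pow, hNδ]; ring
      calc (N : ℝ) ^ 2 / 2 * (8 * δ ^ 2 * (q * μ) + q * h * δ ^ 4)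
          = q * (4 * ((N : ℝ) ^ 2 * δ ^ 2) * μ + ((N : ℝ) ^ 2 * δ ^ 2) * (h * δ ^ 2) / 2) := by ring
        _ = _ := by rw [this]; ring
    have h7 : (h : ℝ) * δ ^ 2 ≤ 4 * Real.pi ^ 2 := by
      have : (N : ℝ) ^ 2 * δ ^ 2 = 4 * Real.pi ^ 2 := by rw [← mul_pow, hNδ]; ring
      rw [← this]
      exact mul_le_mul_of_nonneg_right hh (sq_nonneg _)
    have h8 : 16 * Real.pi ^ 2 * μ + 2 * Real.pi ^ 2 * (h * δ ^ 2) ≤ 160 * μ + 800 := by
      have hp0 : 0 ≤ Real.pi ^ 2 := sq_nonneg _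
      have e1 : Real.pi ^ 2 * μ ≤ 10 * μ := mul_le_mul_of_nonneg_right hpi hμ0
      have e2 : Real.pi ^ 2 * (h * δ ^ 2) ≤ 10 * (4 * 10) := by
        apply mul_le_mul hpi _ (by positivity) (by norm_num)
        linarith
      linarith
    calc _ ≤ _ := h4
      _ ≤ _ := h5
      _ = _ := h6
      _ ≤ _ := mul_le_mul_of_nonneg_left h8 hqpos.le
  have hsubset : ∀ T : Finset (Fin h → ZMod N), ∑ x ∈ T, (g S hne x - μ) ^ 2 ≤ q * (160 * μ + 800) :=
    fun T => le_trans (Finset.sum_le_univ_sum_of_nonneg fun x => sq_nonneg _) hdev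
  -- on S
  have hS1 : ∀ x ∈ S, g S hne x = 0 := by
    intro x hx
    have h1 := g_le S hne x x hx
    rw [sub_self, ip_zero] at h1
    have h2 := g_nonneg S hne x
    linarith
  have hA : ε * μ ^ 2 ≤ 160 * μ + 800 := by
    have h1 := hsubset S
    rw [Finset.sum_congr rfl (fun x hx => by rw [hS1 x hx])] at h1
    simp only [Finset.sum_const, nsmul_eq_mul] at h1
    have h2 : ε * q * μ ^ 2 ≤ q * (160 * μ + 800) := by
      have h3 : ε * q * μ ^ 2 ≤ S.card * (0 - μ) ^ 2 := by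
        have : (0 - μ) ^ 2 = μ ^ 2 := by ring
        rw [this]
        exact mul_le_mul_of_nonneg_right hS (sq_nonneg _)
      linarith
    have h3 : q * (ε * μ ^ 2) ≤ q * (160 * μ + 800) := by linarith
    exact le_of_mul_le_mul_left h3 hqpos
  -- on the antipodal set
  have hB : D ≤ μ ∨ ε * (D - μ) ^ 2 ≤ 160 * μ + 800 := by
    rcases le_or_gt D μ with h | hDμ
    · left; exact h
    right
    let a : Fin h → ZMod N := fun _ => a0
    have hanti : ∀ x : Fin h → ZMod N, ip (x + a) = - ip x := by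
      intro x
      unfold ip
      rw [← Finset.sum_neg_distrib]
      refine Finset.sum_congr rfl fun j _ => ?_
      exact ha0 _
    have hge : ∀ x ∈ S, D ≤ g S hne (x + a) := by
      intro x hx
      obtain ⟨s, hs, hgs⟩ := exists_arg S hne (x + a)
      rw [hgs]
      have h1 : x + a - s = (x - s) + a := by abel
      rw [h1, hanti]
      have := hcon x hx s hs
      linarith
    have h1 := hsubset (S.image (fun x => x + a))
    rw [Finset.sum_image (by intro x _ y _ hxy; simpa using hxy)] at h1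
    have h2 : ∑ x ∈ S, (D - μ) ^ 2 ≤ ∑ x ∈ S, (g S hne (x + a) - μ) ^ 2 := by
      refine Finset.sum_le_sum fun x hx => ?_
      have := hge x hx
      nlinarith
    simp only [Finset.sum_const, nsmul_eq_mul] at h2
    have h3 : ε * q * (D - μ) ^ 2 ≤ S.card * (D - μ) ^ 2 :=
      mul_le_mul_of_nonneg_right hS (sq_nonneg _)
    have h4 : q * (ε * (D - μ) ^ 2) ≤ q * (160 * μ + 800) := by linarith
    exact le_of_mul_le_mul_left h4 hqpos
  -- numerics
  have hεD : 400 ≤ ε * D := by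
    rw [div_le_iff₀ hε0] at hD; linarith
  set y := ε * μ with hy
  have hy0 : 0 ≤ y := by positivity
  have hyy : y ^ 2 ≤ 160 * y + 800 := by
    have : ε * (ε * μ ^ 2) ≤ ε * (160 * μ + 800) := mul_le_mul_of_nonneg_left hA hε0.le
    have h1 : y ^ 2 = ε * (ε * μ ^ 2) := by rw [hy]; ring
    rw [h1]
    nlinarith
  have hy165 : y < 165 := by
    by_contra h
    push Not at h
    nlinarith
  rcases hB with hB | hB
  · have : ε * D ≤ y := mul_le_mul_of_nonneg_left hB hε0.le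
    linarith
  · have h1 : ε * (ε * (D - μ) ^ 2) ≤ ε * (160 * μ + 800) := mul_le_mul_of_nonneg_left hB hε0.le
    have h2 : (ε * D - y) ^ 2 = ε * (ε * (D - μ) ^ 2) := by rw [hy]; ring
    have h3 : (ε * D - y) ^ 2 ≤ 160 * y + 800 := by
      rw [h2]; nlinarith
    nlinarith

end Pool.Agent.Helper221.Conc
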