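import Pool.Agent.Helper221.CubeMaps

/-!
# The wreath product acting on a saturated set
-/

namespace Pool.Agent.Helper221.CubeMain

open SqRot Twist PLMaps CubeMaps

noncomputable section

/-- as an element of `presv` -/
def tN (β : ℝ) : presv := ⟨tP β, tP_mem β⟩

/-- as an element of `presv` -/
def aN (Θ : ℂ → ℝ → ℝ) : presv := ⟨aP Θ, aP_mem Θ⟩

lemma tN_comm (β γ : ℝ) : tN β * tN γ = tN γ * tN β := by
  apply Subtype.ext
  show tP β * tP γ = tP γ * tP β
  rw [tP_mul, tP_mul, add_comm]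

lemma prod_tN {n : ℕ} (α : Fin n → ℝ) (v : Fin n → ℤ) :
    (List.ofFn fun i => tN (α i) ^ v i).prod = tN (∑ i, (v i : ℝ) * α i) := by
  apply Subtype.ext
  have h1 : ((List.ofFn fun i => tN (α i) ^ v i).prod : presv).1 =
      (List.ofFn fun i => tP (α i) ^ v i).prod := by
    have := map_list_prod (Subgroup.subtype presv) (List.ofFn fun i => tN (α i) ^ v i)
    rw [List.map_ofFn] at this
    exact this
  rw [h1]
  have h2 : (fun i => tP (α i) ^ v i) =
      (tHom ∘ fun i => Multiplicative.ofAdd ((v i : ℝ) * α i)) := by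
    ext1 i
    rw [tP_zpow]; rfl
  rw [h2, ← List.map_ofFn, ← map_list_prod, List.prod_ofFn]
  show tP _ = tP _
  rw [toAdd_prod]
  rfl

lemma conj_aN (β : ℝ) (Θ : ℂ → ℝ → ℝ) :
    tN β * aN Θ * (tN β)⁻¹ = aN (fun u r => Θ (rot (-β) u) r) :=
  Subtype.ext (conj_aP β Θ)

lemma aN_comm (Θ Θ' : ℂ → ℝ → ℝ) : aN Θ * aN Θ' = aN Θ' * aN Θ := by
  apply Subtype.ext
  show aP Θ * aP Θ' = aP Θ' * aP Θ
  rw [aP_mul, aP_mul, add_comm]

lemma aN_zpow (Θ : ℂ → ℝ → ℝ) (k : ℤ) : aN Θ ^ k = aN (k • Θ) :=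
  Subtype.ext (aP_zpow Θ k)

lemma prod_aN {ι : Type} (l : List ι) (F : ι → ℂ → ℝ → ℝ) :
    (l.map fun p => aN (F p)).prod = aN (l.map F).sum := by
  induction l with
  | nil => exact Subtype.ext aP_zero.symm
  | cons p l ih =>
    rw [List.map_cons, List.prod_cons, ih, List.map_cons, List.sum_cons]
    exact Subtype.ext (aP_mul _ _)

lemma sum_apply {ι : Type} (l : List ι) (F : ι → ℂ → ℝ → ℝ) (u : ℂ) (r : ℝ) :
    (l.map F).sum u r = (l.map fun p => F p u r).sum := by
  induction l with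
  | nil => rfl
  | cons p l ih => rw [List.map_cons, List.sum_cons, List.map_cons, List.sum_cons, ← ih]; rfl

/-- faithfulness of the action, in normal form -/
theorem faithful {n : ℕ} {α : Fin n → ℝ}
    (hα : ∀ (v : Fin n → ℤ) (k : ℤ), ∑ i, (v i : ℝ) * α i = 8 * k → v = 0)
    {c R : ℝ} (hc : 0 < c) (hcR : c < R) (l : List ((Fin n → ℤ) × ℤ)) (v : Fin n → ℤ)
    (hl : (l.map Prod.fst).Nodup)
    (h : ∀ u w : ℂ, sn u ≤ R → sn w = R →
      ((l.map (fun p : (Fin n → ℤ) × ℤ =>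
        ((List.ofFn fun i => tN (α i) ^ p.1 i).prod * aN (sig c) *
          ((List.ofFn fun i => tN (α i) ^ p.1 i).prod)⁻¹) ^ p.2)).prod *
        (List.ofFn fun i => tN (α i) ^ v i).prod).1 (u, w) = (u, w)) :
    v = 0 ∧ ∀ p ∈ l, p.2 = 0 := by
  classical
  have hR : 0 < R := hc.trans hcR
  set A : (Fin n → ℤ) → ℝ := fun v => ∑ i, (v i : ℝ) * α i with hA
  -- normal form
  have hnf : ((l.map (fun p : (Fin n → ℤ) × ℤ =>
        ((List.ofFn fun i => tN (α i) ^ p.1 i).prod * aN (sig c) *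
          ((List.ofFn fun i => tN (α i) ^ p.1 i).prod)⁻¹) ^ p.2)).prod *
        (List.ofFn fun i => tN (α i) ^ v i).prod) =
      aN (l.map fun p => p.2 • (fun u r => sig c (rot (-A p.1) u) r)).sum * tN (A v) := by
    rw [prod_tN, ← prod_aN]
    congr 2
    apply List.map_congr_left
    intro p _
    rw [prod_tN, conj_aN, aN_zpow]
  rw [hnf] at h
  -- first coordinate
  have hw : sn (R * gam 0) = R := by rw [sn_mul_real hR.le, sn_gam, mul_one]
  have hv : v = 0 := by
    have h1 := h (R * gam 0) (R * gam 0) hw.le hw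
    have h2 : rot (A v) (R * gam 0) = R * gam 0 := congrArg Prod.fst h1
    have h3 : (R * gam 0 : ℂ) ≠ 0 := by
      intro h0; rw [h0, sn_zero] at hw; exact hR.ne hw
    obtain ⟨k, hk⟩ := rot_eq_self h3 h2
    exact hα v k hk
  refine ⟨hv, ?_⟩
  have hAv : A v = 0 := by rw [hv, hA]; simp
  have hAinj : ∀ v w : Fin n → ℤ, (∃ k : ℤ, A v - A w = 8 * k) → v = w := by
    rintro v w ⟨k, hk⟩
    have : v - w = 0 := by
      apply hα (v - w) k
      rw [← hk, hA]
      simp only [Pi.sub_apply, Int.cast_sub, sub_mul, Finset.sum_sub_distrib]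
    exact sub_eq_zero.1 this
  intro p₀ hp₀
  obtain ⟨u, hu, hpos, hlt, hzero⟩ := exists_point hc hcR
    ((l.map fun p => A p.1).toFinset) (β₀ := A p₀.1) (by
      intro β hβ
      rw [List.mem_toFinset, List.mem_map] at hβ
      obtain ⟨p, -, rfl⟩ := hβ
      by_cases hex : ∃ k : ℤ, A p₀.1 - A p.1 = 8 * k
      · exact Or.inl (congrArg A (hAinj _ _ hex).symm)
      · exact Or.inr fun k hk => hex ⟨k, hk⟩) |(p₀.2 : ℝ)|
  have h1 := h u (R * gam 0) hu hw
  have h2 := congrArg Prod.snd h1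
  have h3 : (aN (l.map fun p : (Fin n → ℤ) × ℤ => p.2 • (fun u r => sig c (rot (-A p.1) u) r)).sum *
      tN (A v)).1 (u, (R * gam 0 : ℂ)) =
      (u, rot ((l.map fun p : (Fin n → ℤ) × ℤ =>
        p.2 • (fun u r => sig c (rot (-A p.1) u) r)).sum u R) (R * gam 0)) := by
    rw [hAv]
    show ((rot 0 u), rot ((l.map fun p : (Fin n → ℤ) × ℤ =>
        p.2 • (fun u r => sig c (rot (-A p.1) u) r)).sum (rot 0 u) (sn (R * gam 0))) (R * gam 0)) = _
    rw [rot_zero, hw]
  rw [h3] at h2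
  have h4 : (R * gam 0 : ℂ) ≠ 0 := by
    intro h0; rw [h0, sn_zero] at hw; exact hR.ne hw
  obtain ⟨k, hk⟩ := rot_eq_self h4 h2
  rw [sum_apply] at hk
  have hnd : l.Nodup := List.Nodup.of_map _ hl
  rw [← List.sum_toFinset _ hnd] at hk
  rw [Finset.sum_eq_single p₀] at hk
  · -- the single surviving term
    have h5 : (p₀.2 • (fun u r => sig c (rot (-A p₀.1) u) r)) u R =
        (p₀.2 : ℝ) * sig c (rot (-A p₀.1) u) R := by
      simp [Pi.smul_apply]
    rw [h5] at hk
    set s := sig c (rot (-A p₀.1) u) R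
    have h6 : |(8 : ℝ) * k| < 8 := by
      rw [← hk, abs_mul, abs_of_pos hpos]; exact hlt
    have h7 : k = 0 := by
      by_contra hk0
      have : (1 : ℝ) ≤ |(k : ℝ)| := by exact_mod_cast Int.one_le_abs hk0
      rw [abs_mul, abs_of_pos (by norm_num : (0:ℝ) < 8)] at h6
      linarith
    rw [h7] at hk
    have h8 : (p₀.2 : ℝ) = 0 := by
      have : (p₀.2 : ℝ) * s = 0 := by rw [hk]; simp
      exact (mul_eq_zero.1 this).resolve_right hpos.ne'
    exact_mod_cast h8
  · intro p hp hne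
    have hp' : p ∈ l := List.mem_toFinset.1 hp
    have hAne : A p.1 ≠ A p₀.1 := by
      intro he
      apply hne
      have : p.1 = p₀.1 := hAinj _ _ ⟨0, by rw [he]; simp⟩
      exact List.inj_on_of_nodup_map hl hp' hp₀ this
    have := hzero (A p.1) (by
      rw [List.mem_toFinset, List.mem_map]; exact ⟨p, hp', rfl⟩) hAne
    show (p.2 • (fun u r => sig c (rot (-A p.1) u) r)) u R = 0
    simp [Pi.smul_apply, this]
  · intro h; exact (h (List.mem_toFinset.2 hp₀)).elim

end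

end Pool.Agent.Helper221.CubeMain
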