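import Mathlib

/-!
# Piecewise linear maps via hyperplane arrangements; compact H-polytopes are V-polytopes
-/

namespace Pool.Agent.Helper221.PLMaps

open Set

section HV

variable {m : ℕ}

/-- A bounded set given by finitely many affine inequalities is the convex hull of a finite set. -/
theorem exists_convexHull {κ : Type*} [Finite κ] (f : κ → ((Fin m → ℝ) →ᵃ[ℝ] ℝ))
    (hb : Bornology.IsBounded {x : Fin m → ℝ | ∀ i, f i x ≤ 0}) :
    ∃ s : Finset (Fin m → ℝ), {x : Fin m → ℝ | ∀ i, f i x ≤ 0} = convexHull ℝ (s : Set (Fin m → ℝ)) := by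
  classical
  cases nonempty_fintype κ
  set P : Set (Fin m → ℝ) := {x | ∀ i, f i x ≤ 0} with hP
  have hcont : ∀ i, Continuous (f i) := fun i => (f i).continuous_of_finiteDimensional
  have hclosed : IsClosed P := by
    rw [hP, ofPred_forall]
    exact isClosed_iInter fun i => isClosed_le (hcont i) continuous_const
  have hcomp : IsCompact P := Metric.isCompact_of_isClosed_isBounded hclosed hb
  have hconv : Convex ℝ P := by
    rw [hP, ofPred_forall]
    refine convex_iInter fun i => ?_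
    have : {x : Fin m → ℝ | f i x ≤ 0} = (f i) ⁻¹' Iic 0 := rfl
    rw [this]
    exact (convex_Iic (0:ℝ)).affine_preimage (f i)
  have hfin : (P.extremePoints ℝ).Finite := by
    refine Finite.of_injOn (f := fun x => (Finset.univ.filter fun i => f i x = 0 : Finset κ))
      (t := univ) (fun _ _ => mem_univ _) ?_ finite_univ
    intro x hx y hy hxy
    by_contra hne
    have hact : ∀ i, f i x = 0 ↔ f i y = 0 := by
      intro i
      have := Finset.ext_iff.1 hxy i
      simpa using this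
    set d : Fin m → ℝ := y - x with hd
    have hd0 : d ≠ 0 := fun h => hne (by rw [hd, sub_eq_zero] at h; exact h.symm)
    have haff : ∀ i (t : ℝ), f i (x + t • d) = f i x + t * (f i y - f i x) := by
      intro i t
      have h1 : x + t • d = AffineMap.lineMap x y t := by
        rw [AffineMap.lineMap_apply]; simp [hd, add_comm]
      rw [h1, AffineMap.apply_lineMap, AffineMap.lineMap_apply]
      simp; ring
    have hsmall : ∀ i, ∃ ε > 0, ∀ t : ℝ, |t| ≤ ε → f i (x + t • d) ≤ 0 := by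
      intro i
      rcases eq_or_ne (f i x) 0 with h | h
      · refine ⟨1, one_pos, fun t _ => ?_⟩
        rw [haff, h, (hact i).1 h]; simp
      · have hlt : f i x < 0 := lt_of_le_of_ne (hx.1 i) h
        have hc : Continuous fun t : ℝ => f i (x + t • d) := (hcont i).comp (by fun_prop)
        have h0 : (fun t : ℝ => f i (x + t • d)) 0 < 0 := by simpa using hlt
        have := (hc.continuousAt (x := 0)).eventually_lt_const h0
        rw [Metric.eventually_nhds_iff] at this
        obtain ⟨ε, hε, h1⟩ := this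
        refine ⟨ε / 2, by positivity, fun t ht => (h1 ?_).le⟩
        rw [Real.dist_eq, sub_zero]; linarith
    choose ε hε hε' using hsmall
    obtain ⟨δ, hδ, hδ'⟩ : ∃ δ > 0, ∀ i, δ ≤ ε i := by
      by_cases hne' : Nonempty κ
      · refine ⟨Finset.univ.inf' Finset.univ_nonempty ε, ?_, fun i => Finset.inf'_le _ (Finset.mem_univ i)⟩
        exact (Finset.lt_inf'_iff _).2 fun i _ => hε i
      · exact ⟨1, one_pos, fun i => (hne' ⟨i⟩).elim⟩
    have hp : x + δ • d ∈ P := fun i => hε' i δ (by rw [abs_of_pos hδ]; exact hδ' i)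
    have hm : x + (-δ) • d ∈ P := fun i => hε' i (-δ) (by rw [abs_neg, abs_of_pos hδ]; exact hδ' i)
    have hseg : x ∈ openSegment ℝ (x + δ • d) (x + (-δ) • d) := by
      refine ⟨1/2, 1/2, by norm_num, by norm_num, by norm_num, ?_⟩
      ext j; simp; ring
    have := hx.2 hp hm hseg
    have h2 : δ • d = 0 := by simpa using this
    rcases smul_eq_zero.1 h2 with h | h
    · exact hδ.ne' h
    · exact hd0 h
  refine ⟨hfin.toFinset, ?_⟩
  rw [Finite.coe_toFinset]
  have h1 := closure_convexHull_extremePoints hcomp hconv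
  rw [(hfin.isCompact_convexHull (𝕜 := ℝ)).isClosed.closure_eq] at h1
  exact h1.symm

end HV

section PL

variable {E F G : Type*} [AddCommGroup E] [Module ℝ E] [AddCommGroup F] [Module ℝ F]
  [AddCommGroup G] [Module ℝ G]

/-- Piecewise linear (affine) maps: there is a finite family of affine functionals such that the
map is affine on every closed sign cell. -/
def IsPL (f : E → F) : Prop :=
  ∃ (ι : Type) (_ : Finite ι) (h : ι → (E →ᵃ[ℝ] ℝ)) (A : (ι → Bool) → (E →ᵃ[ℝ] F)),
    ∀ (ε : ι → Bool) (x : E), (∀ i, if ε i then 0 ≤ h i x else h i x ≤ 0) → f x = A ε x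

theorem IsPL.affine (A : E →ᵃ[ℝ] F) : IsPL (A : E → F) :=
  ⟨Empty, inferInstance, Empty.elim, fun _ => A, fun _ _ _ => rfl⟩

theorem IsPL.of_affine {f : E → F} (A : E →ᵃ[ℝ] F) (h : ∀ x, f x = A x) : IsPL f := by
  have : f = A := funext h
  rw [this]; exact IsPL.affine A

theorem IsPL.comp {f : F → G} {g : E → F} (hf : IsPL f) (hg : IsPL g) : IsPL (fun x => f (g x)) := by
  obtain ⟨ι, hι, h, A, hA⟩ := hg
  obtain ⟨κ, hκ, k, B, hB⟩ := hf
  classical
  refine ⟨ι ⊕ ((ι → Bool) × κ), inferInstance,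
    Sum.elim h (fun p => (k p.2).comp (A p.1)),
    fun ε => (B fun j => ε (Sum.inr (fun i => ε (Sum.inl i), j))).comp (A fun i => ε (Sum.inl i)),
    fun ε x hx => ?_⟩
  have h1 : g x = A (fun i => ε (Sum.inl i)) x := hA _ x fun i => hx (Sum.inl i)
  rw [AffineMap.comp_apply, ← h1]
  refine hB _ _ fun j => ?_
  have := hx (Sum.inr (fun i => ε (Sum.inl i), j))
  simp only [Sum.elim_inr, AffineMap.comp_apply, ← h1] at this
  exact this

theorem IsPL.pi {ι' : Type} [Finite ι'] {f : E → ι' → ℝ} (hf : ∀ j, IsPL (fun x => f x j)) :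
    IsPL f := by
  classical
  choose ι hι h A hA using hf
  refine ⟨Σ j, ι j, inferInstance, fun p => h p.1 p.2,
    fun ε => AffineMap.pi (fun j => A j (fun i => ε ⟨j, i⟩)), fun ε x hx => ?_⟩
  ext j
  rw [AffineMap.pi_apply]
  exact hA j _ x fun i => hx ⟨j, i⟩

theorem IsPL.prodMk {f : E → F} {g : E → G} (hf : IsPL f) (hg : IsPL g) :
    IsPL (fun x => (f x, g x)) := by
  obtain ⟨ι, hι, h, A, hA⟩ := hf
  obtain ⟨κ, hκ, k, B, hB⟩ := hg
  refine ⟨ι ⊕ κ, inferInstance, Sum.elim h k,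
    fun ε => (A fun i => ε (Sum.inl i)).prod (B fun i => ε (Sum.inr i)), fun ε x hx => ?_⟩
  rw [AffineMap.prod_apply]
  exact Prod.ext (hA _ x fun i => hx (Sum.inl i)) (hB _ x fun i => hx (Sum.inr i))

theorem isPL_max : IsPL (fun p : ℝ × ℝ => max p.1 p.2) := by
  refine ⟨Unit, inferInstance, fun _ => (AffineMap.fst - AffineMap.snd : (ℝ × ℝ) →ᵃ[ℝ] ℝ),
    fun ε => if ε () then AffineMap.fst else AffineMap.snd, fun ε x hx => ?_⟩
  have := hx ()
  cases h : ε ()
  · simp [h] at this ⊢; linarith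
  · simp [h] at this ⊢; linarith

theorem isPL_min : IsPL (fun p : ℝ × ℝ => min p.1 p.2) := by
  refine ⟨Unit, inferInstance, fun _ => (AffineMap.fst - AffineMap.snd : (ℝ × ℝ) →ᵃ[ℝ] ℝ),
    fun ε => if ε () then AffineMap.snd else AffineMap.fst, fun ε x hx => ?_⟩
  have := hx ()
  cases h : ε ()
  · simp [h] at this ⊢; linarith
  · simp [h] at this ⊢; linarith

theorem IsPL.max {f g : E → ℝ} (hf : IsPL f) (hg : IsPL g) : IsPL (fun x => max (f x) (g x)) :=
  isPL_max.comp (hf.prodMk hg)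

theorem IsPL.min {f g : E → ℝ} (hf : IsPL f) (hg : IsPL g) : IsPL (fun x => min (f x) (g x)) :=
  isPL_min.comp (hf.prodMk hg)

theorem IsPL.const (c : F) : IsPL (fun _ : E => c) :=
  IsPL.of_affine (AffineMap.const ℝ E c) fun _ => rfl

theorem IsPL.add {f g : E → ℝ} (hf : IsPL f) (hg : IsPL g) : IsPL (fun x => f x + g x) :=
  (IsPL.of_affine (f := fun p : ℝ × ℝ => p.1 + p.2)
    (AffineMap.fst + AffineMap.snd : (ℝ × ℝ) →ᵃ[ℝ] ℝ) fun _ => rfl).comp (hf.prodMk hg)

theorem IsPL.sub {f g : E → ℝ} (hf : IsPL f) (hg : IsPL g) : IsPL (fun x => f x - g x) :=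
  (IsPL.of_affine (f := fun p : ℝ × ℝ => p.1 - p.2)
    (AffineMap.fst - AffineMap.snd : (ℝ × ℝ) →ᵃ[ℝ] ℝ) fun _ => rfl).comp (hf.prodMk hg)

theorem IsPL.neg {f : E → ℝ} (hf : IsPL f) : IsPL (fun x => -f x) := by
  have := (IsPL.const (E := E) (0:ℝ)).sub hf
  simpa using this

theorem IsPL.const_mul {f : E → ℝ} (c : ℝ) (hf : IsPL f) : IsPL (fun x => c * f x) :=
  (IsPL.of_affine (f := fun p : ℝ => c * p) (c • AffineMap.id ℝ ℝ) fun _ => rfl).comp hf

theorem IsPL.abs {f : E → ℝ} (hf : IsPL f) : IsPL (fun x => |f x|) :=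
  hf.max hf.neg

theorem isPL_coord {m : ℕ} (j : Fin m) : IsPL (fun x : Fin m → ℝ => x j) :=
  IsPL.of_affine (LinearMap.proj j : (Fin m → ℝ) →ₗ[ℝ] ℝ).toAffineMap fun _ => rfl

end PL

/-- Conversion: on a box, a PL map has a finite decomposition into convex hulls of finite sets. -/
theorem IsPL.exists_cells {m : ℕ} {f : (Fin m → ℝ) → (Fin m → ℝ)} (hf : IsPL f)
    (lo hi : Fin m → ℝ) :
    ∃ (N : ℕ) (S : Fin N → Finset (Fin m → ℝ)) (A : Fin N → ((Fin m → ℝ) →ᵃ[ℝ] (Fin m → ℝ))),
      (∀ x ∈ Icc lo hi, ∃ i, x ∈ convexHull ℝ (S i : Set (Fin m → ℝ))) ∧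
      ∀ i, ∀ x ∈ convexHull ℝ (S i : Set (Fin m → ℝ)), f x = A i x := by
  classical
  obtain ⟨ι, hι, h, A, hA⟩ := hf
  cases nonempty_fintype ι
  -- the functionals cutting out the cells
  let cut : (ι → Bool) → (ι ⊕ (Fin m ⊕ Fin m)) → ((Fin m → ℝ) →ᵃ[ℝ] ℝ) := fun ε =>
    Sum.elim (fun i => if ε i then -(h i) else h i)
      (Sum.elim (fun j => AffineMap.const ℝ _ (lo j) - (LinearMap.proj j : (Fin m → ℝ) →ₗ[ℝ] ℝ).toAffineMap)
        (fun j => (LinearMap.proj j : (Fin m → ℝ) →ₗ[ℝ] ℝ).toAffineMap - AffineMap.const ℝ _ (hi j)))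
  have hmem : ∀ ε (x : Fin m → ℝ), (∀ i, cut ε i x ≤ 0) ↔
      (∀ i, if ε i then 0 ≤ h i x else h i x ≤ 0) ∧ x ∈ Icc lo hi := by
    intro ε x
    constructor
    · intro hx
      refine ⟨fun i => ?_, ?_, ?_⟩
      · have := hx (Sum.inl i)
        cases hi' : ε i
        · simp [cut, hi'] at this ⊢; exact this
        · simp [cut, hi'] at this ⊢; exact this
      · intro j
        have := hx (Sum.inr (Sum.inl j))
        simp [cut] at this
        exact this
      · intro j
        have := hx (Sum.inr (Sum.inr j))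
        simp [cut] at this
        exact this
    · rintro ⟨h1, h2, h3⟩ (i | j | j)
      · have := h1 i
        cases hi' : ε i
        · simp [cut, hi'] at this ⊢; exact this
        · simp [cut, hi'] at this ⊢; exact this
      · simp [cut]; exact h2 j
      · simp [cut]; exact h3 j
  have hV : ∀ ε, ∃ s : Finset (Fin m → ℝ),
      {x : Fin m → ℝ | ∀ i, cut ε i x ≤ 0} = convexHull ℝ (s : Set (Fin m → ℝ)) := by
    intro ε
    refine exists_convexHull (cut ε) ((Metric.isBounded_Icc lo hi).subset ?_)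
    intro x hx
    exact ((hmem ε x).1 hx).2
  choose s hs using hV
  let e := Fintype.equivFin (ι → Bool)
  refine ⟨Fintype.card (ι → Bool), fun i => s (e.symm i), fun i => A (e.symm i), ?_, ?_⟩
  · intro x hx
    refine ⟨e (fun i => decide (0 ≤ h i x)), ?_⟩
    show x ∈ convexHull ℝ (s (e.symm (e fun i => decide (0 ≤ h i x))) : Set (Fin m → ℝ))
    rw [e.symm_apply_apply, ← hs]
    refine (hmem _ x).2 ⟨fun i => ?_, hx⟩
    by_cases h0 : 0 ≤ h i x
    · simp [h0]
    · simp [h0]; linarith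
  · intro i x hx
    rw [← hs] at hx
    exact hA _ x ((hmem _ x).1 hx).1

end Pool.Agent.Helper221.PLMaps
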