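import Pool.Agent.Helper221.Twist
import Pool.Agent.Helper221.PLMaps

/-!
# Coordinates in dimension four and piecewise linearity of the generators
-/

namespace Pool.Agent.Helper221.CubeMaps

open SqRot Twist PLMaps

noncomputable section

/-- centred complex coordinates -/
def proj (c : ℝ) (x : Fin 4 → ℝ) : ℂ × ℂ := (⟨x 0 - c, x 1 - c⟩, ⟨x 2 - c, x 3 - c⟩)

/-- inverse of `proj` -/
def emb (c : ℝ) (p : ℂ × ℂ) : Fin 4 → ℝ := ![p.1.re + c, p.1.im + c, p.2.re + c, p.2.im + c]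

lemma proj_emb (c : ℝ) (p : ℂ × ℂ) : proj c (emb c p) = p := by
  apply Prod.ext <;> apply Complex.ext <;> simp [proj, emb]

lemma emb_proj (c : ℝ) (x : Fin 4 → ℝ) : emb c (proj c x) = x := by
  ext i; fin_cases i <;> simp [proj, emb]

/-- a permutation in real coordinates -/
def M (c : ℝ) (G : Equiv.Perm (ℂ × ℂ)) (x : Fin 4 → ℝ) : Fin 4 → ℝ := emb c (G (proj c x))

lemma M_mul (c : ℝ) (G H : Equiv.Perm (ℂ × ℂ)) (x : Fin 4 → ℝ) :
    M c (G * H) x = M c G (M c H x) := by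
  simp [M, proj_emb]

lemma M_one (c : ℝ) (x : Fin 4 → ℝ) : M c 1 x = x := by simp [M, emb_proj]

/-- piecewise linear and continuous -/
def CPL {F : Type*} [AddCommGroup F] [Module ℝ F] [TopologicalSpace F]
    (f : (Fin 4 → ℝ) → F) : Prop := IsPL f ∧ Continuous f

lemma CPL.pX {f g t : (Fin 4 → ℝ) → ℝ} (hf : CPL f) (hg : CPL g) (ht : CPL t) :
    CPL (fun x => pX (f x) (g x) (t x)) := by
  have h0 := IsPL.const (E := Fin 4 → ℝ) (0 : ℝ)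
  obtain ⟨hf, hf'⟩ := hf
  obtain ⟨hg, hg'⟩ := hg
  obtain ⟨ht, ht'⟩ := ht
  refine ⟨?_, ?_⟩
  · unfold SqRot.pX
    exact (hf.sub (ht.min (((hf.add hg).max h0).min (((hg.add ht).sub hf).max h0)))).add
      (ht.min (((hf.neg.sub hg).max h0).min (((ht.add hf).sub hg).max h0)))
  · unfold SqRot.pX
    fun_prop

lemma CPL.coord (c : ℝ) (i : Fin 4) : CPL (fun x : Fin 4 → ℝ => x i - c) :=
  ⟨(isPL_coord i).sub (IsPL.const c), by fun_prop⟩

lemma CPL.neg {f : (Fin 4 → ℝ) → ℝ} (hf : CPL f) : CPL (fun x => -f x) :=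
  ⟨hf.1.neg, hf.2.neg⟩

lemma CPL.add_const {f : (Fin 4 → ℝ) → ℝ} (hf : CPL f) (c : ℝ) : CPL (fun x => f x + c) :=
  ⟨hf.1.add (IsPL.const c), hf.2.add continuous_const⟩

lemma CPL.sn {f g : (Fin 4 → ℝ) → ℝ} (hf : CPL f) (hg : CPL g) :
    CPL (fun x => sn ⟨f x, g x⟩) :=
  ⟨hf.1.abs.max hg.1.abs, hf.2.abs.max hg.2.abs⟩

lemma CPL.const_mul {f : (Fin 4 → ℝ) → ℝ} (hf : CPL f) (c : ℝ) : CPL (fun x => c * f x) :=
  ⟨hf.1.const_mul c, continuous_const.mul hf.2⟩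

lemma CPL.min {f g : (Fin 4 → ℝ) → ℝ} (hf : CPL f) (hg : CPL g) :
    CPL (fun x => min (f x) (g x)) :=
  ⟨hf.1.min hg.1, hf.2.min hg.2⟩

lemma CPL.bump {f g : (Fin 4 → ℝ) → ℝ} (hf : CPL f) (hg : CPL g) (c : ℝ) :
    CPL (fun x => bump c ⟨f x, g x⟩) := by
  refine ⟨?_, ?_⟩
  · exact (IsPL.const (0:ℝ)).max ((hf.1.sub hg.1.abs).sub (IsPL.const c))
  · exact continuous_const.max ((hf.2.sub hg.2.abs).sub continuous_const)

lemma CPL.rotF {f g t : (Fin 4 → ℝ) → ℝ} (hf : CPL f) (hg : CPL g) (ht : CPL t) :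
    CPL (fun x => (rotF ⟨f x, g x⟩ (t x)).re) ∧ CPL (fun x => (rotF ⟨f x, g x⟩ (t x)).im) :=
  ⟨CPL.pX hf hg ht, (CPL.pX hg.neg hf ht).neg⟩

lemma CPL.rotG {f g t : (Fin 4 → ℝ) → ℝ} (hf : CPL f) (hg : CPL g) (ht : CPL t) :
    CPL (fun x => (rotG ⟨f x, g x⟩ (t x)).re) ∧ CPL (fun x => (rotG ⟨f x, g x⟩ (t x)).im) := by
  refine ⟨CPL.pX hf hg.neg ht, ?_⟩
  have := (CPL.pX hg.neg.neg hf ht).neg.neg
  exact this

lemma CPL.of_coord {f : (Fin 4 → ℝ) → (Fin 4 → ℝ)} (h : ∀ i, CPL (fun x => f x i)) : CPL f :=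
  ⟨IsPL.pi fun i => (h i).1, continuous_pi fun i => (h i).2⟩

lemma CPL.comp {f g : (Fin 4 → ℝ) → (Fin 4 → ℝ)} (hf : CPL f) (hg : CPL g) :
    CPL (fun x => f (g x)) := ⟨hf.1.comp hg.1, hf.2.comp hg.2⟩

lemma rot_eq_rotF {α : ℝ} (h0 : 0 ≤ α) (h1 : α ≤ 1) (u : ℂ) : rot α u = rotF u (α * sn u) := by
  rw [rotF_eq_rot (mul_nonneg h0 (sn_nonneg u)) (by nlinarith [sn_nonneg u])]
  rcases eq_or_lt_of_le (sn_nonneg u) with h | h
  · rw [sn_eq_zero h.symm, rot_zero_right, rot_zero_right]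
  · rw [mul_div_cancel_right₀ _ h.ne']

lemma rot_neg_eq_rotG {α : ℝ} (h0 : 0 ≤ α) (h1 : α ≤ 1) (u : ℂ) :
    rot (-α) u = rotG u (α * sn u) := by
  rw [rotG_eq_rot (mul_nonneg h0 (sn_nonneg u)) (by nlinarith [sn_nonneg u])]
  rcases eq_or_lt_of_le (sn_nonneg u) with h | h
  · rw [sn_eq_zero h.symm, rot_zero_right, rot_zero_right]
  · rw [mul_div_cancel_right₀ _ h.ne']

lemma bump_nonneg (c : ℝ) (u : ℂ) : 0 ≤ bump c u := le_max_left _ _

lemma rot_sig (c : ℝ) (u v : ℂ) : rot (sig c u (sn v)) v = rotF v (min (sn v) (bump c u)) :=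
  (rotF_eq_rot (le_min (sn_nonneg v) (bump_nonneg c u)) (min_le_left _ _)).symm

lemma rot_neg_sig (c : ℝ) (u v : ℂ) :
    rot (-sig c u (sn v)) v = rotG v (min (sn v) (bump c u)) :=
  (rotG_eq_rot (le_min (sn_nonneg v) (bump_nonneg c u)) (min_le_left _ _)).symm

lemma coord_id (c : ℝ) (i : Fin 4) : CPL (fun x : Fin 4 → ℝ => x i - c + c) :=
  (CPL.coord c i).add_const c

lemma CPL_tP (c : ℝ) {α : ℝ} (h0 : 0 ≤ α) (h1 : α ≤ 1) : CPL (M c (tP α)) := by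
  have hr := CPL.rotF (CPL.coord c 0) (CPL.coord c 1)
    (((CPL.coord c 0).sn (CPL.coord c 1)).const_mul α)
  have e : M c (tP α) = fun x => emb c (rotF ⟨x 0 - c, x 1 - c⟩ (α * sn ⟨x 0 - c, x 1 - c⟩),
      ⟨x 2 - c, x 3 - c⟩) := by
    ext1 x
    simp only [M, tP_apply, proj]
    rw [rot_eq_rotF h0 h1]
  rw [e]
  refine CPL.of_coord fun i => ?_
  fin_cases i
  · exact hr.1.add_const c
  · exact hr.2.add_const c
  · exact coord_id c 2
  · exact coord_id c 3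

lemma CPL_tP_inv (c : ℝ) {α : ℝ} (h0 : 0 ≤ α) (h1 : α ≤ 1) : CPL (M c (tP α)⁻¹) := by
  have hr := CPL.rotG (CPL.coord c 0) (CPL.coord c 1)
    (((CPL.coord c 0).sn (CPL.coord c 1)).const_mul α)
  have e : M c (tP α)⁻¹ = fun x => emb c (rotG ⟨x 0 - c, x 1 - c⟩ (α * sn ⟨x 0 - c, x 1 - c⟩),
      ⟨x 2 - c, x 3 - c⟩) := by
    ext1 x
    rw [tP_inv]
    simp only [M, tP_apply, proj]
    rw [rot_neg_eq_rotG h0 h1]
  rw [e]
  refine CPL.of_coord fun i => ?_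
  fin_cases i
  · exact hr.1.add_const c
  · exact hr.2.add_const c
  · exact coord_id c 2
  · exact coord_id c 3

lemma CPL_aP (c b : ℝ) : CPL (M c (aP (sig b))) := by
  have hr := CPL.rotF (CPL.coord c 2) (CPL.coord c 3)
    (((CPL.coord c 2).sn (CPL.coord c 3)).min ((CPL.coord c 0).bump (CPL.coord c 1) b))
  have e : M c (aP (sig b)) = fun x => emb c (⟨x 0 - c, x 1 - c⟩,
      rotF ⟨x 2 - c, x 3 - c⟩ (min (sn ⟨x 2 - c, x 3 - c⟩) (bump b ⟨x 0 - c, x 1 - c⟩))) := by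
    ext1 x
    simp only [M, aP_apply, proj]
    rw [rot_sig]
  rw [e]
  refine CPL.of_coord fun i => ?_
  fin_cases i
  · exact coord_id c 0
  · exact coord_id c 1
  · exact hr.1.add_const c
  · exact hr.2.add_const c

lemma CPL_aP_inv (c b : ℝ) : CPL (M c (aP (sig b))⁻¹) := by
  have hr := CPL.rotG (CPL.coord c 2) (CPL.coord c 3)
    (((CPL.coord c 2).sn (CPL.coord c 3)).min ((CPL.coord c 0).bump (CPL.coord c 1) b))
  have e : M c (aP (sig b))⁻¹ = fun x => emb c (⟨x 0 - c, x 1 - c⟩,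
      rotG ⟨x 2 - c, x 3 - c⟩ (min (sn ⟨x 2 - c, x 3 - c⟩) (bump b ⟨x 0 - c, x 1 - c⟩))) := by
    ext1 x
    rw [aP_inv]
    simp only [M, aP_apply, proj]
    rw [← rot_neg_sig]
    rfl
  rw [e]
  refine CPL.of_coord fun i => ?_
  fin_cases i
  · exact coord_id c 0
  · exact coord_id c 1
  · exact hr.1.add_const c
  · exact hr.2.add_const c

end

end Pool.Agent.Helper221.CubeMaps
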