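import Pool.Agent.Helper221.Build

set_option autoImplicit false

namespace Pool.Agent.Helper221.Final

open Finset Pool.Agent.Helper221.Build Pool.Agent.Helper221.Alloc

lemma ncard_eq_sum_ind {α : Type} [Fintype α] (p : α → Prop) : {a | p a}.ncard = ∑ a, ind (p a) := by
  classical
  rw [sum_ind, Set.ncard_eq_toFinset_card']
  congr 1
  ext a; simp

section
variable {m q K ρ : ℕ}

lemma sumV (p : Vt m q K ρ → Prop) : ∑ x, ind (p x) =
    ((∑ s, ind (p (.inl (true, .inl s)))) + ((∑ c, ind (p (.inl (true, .inr (.inl c))))) + (∑ e, ind (p (.inl (true, .inr (.inr e))))))) +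
    ((∑ s, ind (p (.inl (false, .inl s)))) + ((∑ c, ind (p (.inl (false, .inr (.inl c))))) + (∑ e, ind (p (.inl (false, .inr (.inr e))))))) +
    ∑ r, ind (p (.inr r)) := by
  rw [Fintype.sum_sum_type, Fintype.sum_prod_type, Fintype.sum_bool]
  simp_rw [Fintype.sum_sum_type]

lemma ind_sum_zero {α : Type} [Fintype α] (p : α → Prop) (h : ∀ a, ¬ p a) : ∑ a, ind (p a) = 0 := by
  refine Finset.sum_eq_zero fun a _ => ?_
  have : p a = False := by simp [h a]
  rw [this, ind_false]

lemma ind_sum_le_two {α : Type} [Fintype α] (p : α → Prop) (f : α → ℕ) (hf : Function.Injective f) (t u : ℕ)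
    (h : ∀ a, p a → f a = t ∨ f a = u) : ∑ a, ind (p a) ≤ 2 := by
  classical
  rw [sum_ind]
  calc (Finset.univ.filter p).card ≤ ({t, u} : Finset ℕ).card := by
        refine Finset.card_le_card_of_injOn f ?_ (fun a _ b _ hab => hf hab)
        intro a ha
        simp only [Finset.coe_filter, mem_univ, true_and, Set.mem_ofPred_eq] at ha
        simpa using h a ha
    _ ≤ 2 := Finset.card_le_two

lemma ind_sum_le_one {α : Type} [Fintype α] (p : α → Prop) (h : ∀ a b, p a → p b → a = b) : ∑ a, ind (p a) ≤ 1 := by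
  classical
  rw [sum_ind, Finset.card_le_one]
  intro a ha b hb
  simp only [mem_filter, mem_univ, true_and] at ha hb
  exact h a b ha hb

lemma idx_two (M : ℕ) (hM : 2 ≤ M) (T : ℕ) : ∑ j : Fin M, ind (T + j.val / 2 = T) = 2 := by
  classical
  rw [sum_ind]
  have : (Finset.univ.filter (fun j : Fin M => T + j.val / 2 = T)) = {⟨0, by omega⟩, ⟨1, by omega⟩} := by
    ext j
    simp only [mem_filter, mem_univ, true_and, mem_insert, mem_singleton, Fin.ext_iff]
    omega
  rw [this, Finset.card_pair]
  simp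

end

open Classical in
theorem construct (q m K ρ P κ : ℕ) (I D : Fin q → Fin q → Prop)
    (hIs : ∀ x y, I x y → I y x) (hDs : ∀ x y, D x y → D y x) (hIi : ∀ x, ¬ I x x)
    (T1 : ∀ x y z, I x y → I y z → I x z → False)
    (T2 : ∀ x x' y y', I x x' → I y y' → D x y → D x y' → D x' y → D x' y' → False)
    (hS : ∀ S : Finset (Fin q), (∀ x ∈ S, ∀ y ∈ S, ¬ I x y) → S.card ≤ κ)
    (r : Fin m × Fin q → ℕ)
    (hr : ∀ s, m * (Finset.univ.filter (fun y => I s.2 y)).card + s.1.val * (Finset.univ.filter (fun y => D s.2 y)).card +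
      r s = P + (finProdFinEquiv s).val / 2)
    (h7 : ∀ s, 7 * K ≤ 10 * r s) (h17 : ∀ s, 20 * r s ≤ 17 * K)
    (hK : 100 * K ≤ 9 * (m * q)) (hM : 100 ≤ m * q) (hρ : ρ ≤ 3) (hρK : ρ ≤ K) (hP : P ≤ K) (hP1 : 1 ≤ P) :
    ∃ G : SimpleGraph (Vt m q K ρ), G.CliqueFree 4 ∧ (∀ v, 1 ≤ (G.neighborSet v).ncard) ∧
      (∀ d, {v | (G.neighborSet v).ncard = d}.ncard ≤ 4) ∧ (∃ d, {v | (G.neighborSet v).ncard = d}.ncard = 4) ∧
      (∀ T : Finset (Vt m q K ρ), (∀ x ∈ T, ∀ y ∈ T, ¬ G.Adj x y) → T.card ≤ 2 * (m * κ) + 4 * K + ρ) := by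
  have hrK : ∀ s, r s ≤ K := by intro s; have := h17 s; omega
  obtain ⟨R, hR, v, hv⟩ := alloc K r hrK
  -- bounds on v
  have hsum := sum_rows K R
  have hK1 : 1 ≤ K := by omega
  have hcardA : Fintype.card (Fin m × Fin q) = m * q := by simp [Fintype.card_prod]
  have hlow : 7 * (m * q) ≤ 10 * (v + 1) := by
    have h1 : ∑ c : Fin K, (Finset.univ.filter (fun s => c ∈ R s)).card ≤ K * (v + 1) := by
      calc _ ≤ ∑ c : Fin K, (v + 1) := Finset.sum_le_sum fun c _ => by have := hv c; omega
        _ = K * (v + 1) := by simp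
    have h2 : (m * q) * (7 * K) ≤ ∑ s, 10 * (R s).card := by
      calc (m * q) * (7 * K) = ∑ s : Fin m × Fin q, 7 * K := by
            rw [Finset.sum_const, Finset.card_univ, hcardA, smul_eq_mul]
        _ ≤ _ := Finset.sum_le_sum fun s _ => by rw [hR s]; exact h7 s
    rw [← Finset.mul_sum, ← hsum] at h2
    have h3 : K * (7 * (m * q)) ≤ K * (10 * (v + 1)) := by nlinarith
    exact Nat.le_of_mul_le_mul_left h3 hK1
  have hhigh : 20 * v ≤ 17 * (m * q) := by
    have h1 : K * v ≤ ∑ c : Fin K, (Finset.univ.filter (fun s => c ∈ R s)).card := by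
      calc K * v = ∑ c : Fin K, v := by simp
        _ ≤ _ := Finset.sum_le_sum fun c _ => by have := hv c; omega
    have h2 : ∑ s, 20 * (R s).card ≤ (m * q) * (17 * K) := by
      calc _ ≤ ∑ s : Fin m × Fin q, 17 * K := Finset.sum_le_sum fun s _ => by rw [hR s]; exact h17 s
        _ = (m * q) * (17 * K) := by
            rw [Finset.sum_const, Finset.card_univ, hcardA, smul_eq_mul]
    rw [← Finset.mul_sum, ← hsum] at h2
    have h3 : K * (20 * v) ≤ K * (17 * (m * q)) := by nlinarith
    exact Nat.le_of_mul_le_mul_left h3 hK1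
  set M := m * q with hMdef
  let G : SimpleGraph (Vt m q K ρ) := Gr I D R hIs hDs hIi
  have hadj : ∀ x y, G.Adj x y ↔ adj I D R x y := fun x y => Iff.rfl
  have hsymm : ∀ x y : Vt m q K ρ, adj I D R x y → adj I D R y x := fun x y h => SimpleGraph.Adj.symm (G := G) h
  -- degrees
  have hdeg : ∀ x, (G.neighborSet x).ncard = dg I D R x := by
    intro x
    unfold dg
    rw [← ncard_eq_sum_ind]
    rfl
  let N : ℕ → Fin K → ℕ := fun _ c => (Finset.univ.filter (fun s => c ∈ R s)).card
  have dA : ∀ b s, dg I D R (.inl (b, .inl s) : Vt m q K ρ) = (K + P) + (finProdFinEquiv s).val / 2 := by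
    intro b s
    rw [dg_A, hR s]
    have := hr s
    omega
  have dC : ∀ b c, ∃ w, w ≤ ρ ∧ dg I D R (.inl (b, .inr (.inl c)) : Vt m q K ρ) =
      (Finset.univ.filter (fun s => c ∈ R s)).card + (c.val + 1) + w := by
    intro b c
    refine ⟨_, ?_, dg_C I D R b c⟩
    split_ifs
    · exact (Finset.card_le_univ _).trans (by simp)
    · exact Nat.zero_le _
  have dE : ∀ b e, dg I D R (.inl (b, .inr (.inr e)) : Vt m q K ρ) = M + (K - e.val) := fun b e => dg_E I D R b e
  have dr : ∀ e, dg I D R (.inr e : Vt m q K ρ) = K - e.val := by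
    intro e
    rw [dg_r, card_r]
  -- counts for each type
  have cA : ∀ b d, ∑ s, ind (dg I D R (.inl (b, .inl s) : Vt m q K ρ) = d) ≤ 2 := by
    intro b d
    refine ind_sum_le_two _ (fun s => (finProdFinEquiv s).val) (fun s t hst => finProdFinEquiv.injective (Fin.ext hst))
      (2 * (d - (K + P))) (2 * (d - (K + P)) + 1) ?_
    intro s hs
    rw [dA] at hs
    omega
  have cA0 : ∀ b d, (d ≤ K ∨ 2 * K + M / 2 < d) → ∑ s, ind (dg I D R (.inl (b, .inl s) : Vt m q K ρ) = d) = 0 := by
    intro b d hd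
    refine ind_sum_zero _ fun s hs => ?_
    rw [dA] at hs
    have := (finProdFinEquiv s).2
    omega
  have cC : ∀ b d, ∑ c, ind (dg I D R (.inl (b, .inr (.inl c)) : Vt m q K ρ) = d) ≤ 2 := by
    intro b d
    refine ind_sum_le_two _ (fun c => (c.val + 1) + (if b then (Finset.univ.filter (fun r : Fin ρ => r.val ≤ c.val)).card else 0))
      ?_ (d - v) (d - (v + 1)) ?_
    · have hmono : StrictMono (fun c : Fin K => (c.val + 1) + (if b then (Finset.univ.filter (fun r : Fin ρ => r.val ≤ c.val)).card else 0)) := by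
        intro c c' hcc
        have h1 : c.val < c'.val := hcc
        have h2 : (Finset.univ.filter (fun r : Fin ρ => r.val ≤ c.val)).card ≤ (Finset.univ.filter (fun r : Fin ρ => r.val ≤ c'.val)).card := by
          refine Finset.card_le_card ?_
          intro x hx
          simp only [mem_filter, mem_univ, true_and] at hx ⊢
          omega
        beta_reduce
        split_ifs <;> omega
      exact hmono.injective
    · intro c hc
      rw [dg_C] at hc
      have := hv c
      beta_reduce
      omega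
  have cC0 : ∀ b d, (d ≤ 2 * K + M / 2 ∨ M < d) → ∑ c, ind (dg I D R (.inl (b, .inr (.inl c)) : Vt m q K ρ) = d) = 0 := by
    intro b d hd
    refine ind_sum_zero _ fun c hc => ?_
    obtain ⟨w, hw, hdw⟩ := dC b c
    rw [hdw] at hc
    have := hv c
    have := c.2
    omega
  have cE : ∀ b d, ∑ e, ind (dg I D R (.inl (b, .inr (.inr e)) : Vt m q K ρ) = d) ≤ 1 := by
    intro b d
    refine ind_sum_le_one _ fun e e' he he' => ?_
    rw [dE] at he he'
    have := e.2
    have := e'.2
    exact Fin.ext (by omega)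
  have cE0 : ∀ b d, d ≤ M → ∑ e, ind (dg I D R (.inl (b, .inr (.inr e)) : Vt m q K ρ) = d) = 0 := by
    intro b d hd
    refine ind_sum_zero _ fun e he => ?_
    rw [dE] at he
    have := e.2
    omega
  have cr : ∀ d, ∑ e, ind (dg I D R (.inr e : Vt m q K ρ) = d) ≤ 1 := by
    intro d
    refine ind_sum_le_one _ fun e e' he he' => ?_
    rw [dr] at he he'
    have := e.2
    have := e'.2
    exact Fin.ext (by omega)
  have cr0 : ∀ d, K < d → ∑ e, ind (dg I D R (.inr e : Vt m q K ρ) = d) = 0 := by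
    intro d hd
    refine ind_sum_zero _ fun e he => ?_
    rw [dr] at he
    omega
  have hcount : ∀ d, {x | (G.neighborSet x).ncard = d}.ncard = ∑ x : Vt m q K ρ, ind (dg I D R x = d) := by
    intro d
    have : {x | (G.neighborSet x).ncard = d} = {x | dg I D R x = d} := by
      ext x; simp [hdeg]
    rw [this, ncard_eq_sum_ind]
  refine ⟨G, ?_, ?_, ?_, ?_, ?_⟩
  · -- K4-free
    by_contra hcf
    rw [SimpleGraph.not_cliqueFree_iff_top_isContained] at hcf
    obtain ⟨f⟩ := hcf
    have hf : ∀ i j : Fin 4, i ≠ j → adj I D R (f i) (f j) := by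
      intro i j hij
      exact f.toHom.map_adj hij
    exact no_K4 I D R T1 T2 hDs (f 0) (f 1) (f 2) (f 3) (hf _ _ (by decide)) (hf _ _ (by decide)) (hf _ _ (by decide))
      (hf _ _ (by decide)) (hf _ _ (by decide)) (hf _ _ (by decide)) hsymm
  · intro x
    rw [hdeg]
    rcases x with ⟨b, (s | (c | e))⟩ | e
    · rw [dA]; omega
    · obtain ⟨w, _, hdw⟩ := dC b c
      rw [hdw]; omega
    · rw [dE]; omega
    · rw [dr]; have := e.2; omega
  · intro d
    rw [hcount, sumV]
    have a1 := cA true d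
    have a2 := cA false d
    have a3 := cC true d
    have a4 := cC false d
    have a5 := cE true d
    have a6 := cE false d
    have a7 := cr d
    rcases le_or_gt d K with h | h
    · rw [cA0 true d (Or.inl h), cA0 false d (Or.inl h), cC0 true d (Or.inl (by omega)), cC0 false d (Or.inl (by omega)),
        cE0 true d (by omega), cE0 false d (by omega)]
      omega
    rcases le_or_gt d (2 * K + M / 2) with h' | h'
    · rw [cC0 true d (Or.inl h'), cC0 false d (Or.inl h'), cE0 true d (by omega), cE0 false d (by omega), cr0 d h]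
      omega
    rcases le_or_gt d M with h'' | h''
    · rw [cA0 true d (Or.inr h'), cA0 false d (Or.inr h'), cE0 true d h'', cE0 false d h'', cr0 d h]
      omega
    · rw [cA0 true d (Or.inr h'), cA0 false d (Or.inr h'), cC0 true d (Or.inr h''), cC0 false d (Or.inr h''), cr0 d h]
      omega
  · refine ⟨K + P, ?_⟩
    rw [hcount, sumV]
    have e1 : ∀ b, ∑ s, ind (dg I D R (.inl (b, .inl s) : Vt m q K ρ) = K + P) = 2 := by
      intro b
      simp_rw [dA]
      have h1 := Equiv.sum_comp (finProdFinEquiv (m := m) (n := q)) (fun j => ind (K + P + j.val / 2 = K + P))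
      rw [h1]
      exact idx_two (m * q) (by omega) (K + P)
    rw [e1 true, e1 false, cC0 true _ (Or.inl (by omega)), cC0 false _ (Or.inl (by omega)),
      cE0 true _ (by omega), cE0 false _ (by omega), cr0 _ (by omega)]
  · intro T hT
    have hTc : T.card = ∑ x, ind (x ∈ T) := by
      rw [sum_ind]; congr 1; ext x; simp
    rw [hTc, sumV]
    have tA : ∀ b, ∑ s, ind ((.inl (b, .inl s) : Vt m q K ρ) ∈ T) ≤ m * κ := by
      intro b
      rw [sum_ind]
      set Tb := Finset.univ.filter (fun s : Fin m × Fin q => (.inl (b, .inl s) : Vt m q K ρ) ∈ T) with hTb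
      have h1 : (Tb.image Prod.snd).card ≤ κ := by
        refine hS _ ?_
        intro x hx y hy hxy
        rw [Finset.mem_image] at hx hy
        obtain ⟨s, hs, rfl⟩ := hx
        obtain ⟨t, ht, rfl⟩ := hy
        rw [hTb, Finset.mem_filter] at hs ht
        refine hT _ hs.2 _ ht.2 ?_
        rw [hadj]
        left
        exact ⟨rfl, hxy⟩
      have h2 : Tb ⊆ (Finset.univ : Finset (Fin m)) ×ˢ (Tb.image Prod.snd) := by
        intro s hs
        rw [Finset.mem_product]
        exact ⟨Finset.mem_univ _, Finset.mem_image_of_mem _ hs⟩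
      calc Tb.card ≤ _ := Finset.card_le_card h2
        _ = m * (Tb.image Prod.snd).card := by rw [Finset.card_product]; simp
        _ ≤ m * κ := Nat.mul_le_mul_left _ h1
    have tgen : ∀ {α : Type} [Fintype α] (p : α → Prop), ∑ a, ind (p a) ≤ Fintype.card α := by
      intro α _ p
      rw [sum_ind]
      exact Finset.card_le_univ _
    have t1 := tA true
    have t2 := tA false
    have t3 := tgen (fun c : Fin K => (.inl (true, .inr (.inl c)) : Vt m q K ρ) ∈ T)
    have t4 := tgen (fun c : Fin K => (.inl (false, .inr (.inl c)) : Vt m q K ρ) ∈ T)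
    have t5 := tgen (fun c : Fin K => (.inl (true, .inr (.inr c)) : Vt m q K ρ) ∈ T)
    have t6 := tgen (fun c : Fin K => (.inl (false, .inr (.inr c)) : Vt m q K ρ) ∈ T)
    have t7 := tgen (fun c : Fin ρ => (.inr c : Vt m q K ρ) ∈ T)
    rw [Fintype.card_fin] at t3 t4 t5 t6 t7
    omega

end Pool.Agent.Helper221.Final
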