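import Pool.Agent.Helper221.Conc

set_option autoImplicit false

namespace Pool.Agent.Helper221.LO

open Finset Pool.Agent.Helper221.Circ Pool.Agent.Helper221.Conc
open scoped symmDiff

section
variable {k h : ℕ} [NeZero (4 * k)]

open Classical in
noncomputable def act (F : Finset (Fin h)) (x : Fin h → ZMod (4 * k)) : Fin h → ZMod (4 * k) :=
  fun j => if j ∈ F then partner (x j) else x j

lemma act_act (F : Finset (Fin h)) (x : Fin h → ZMod (4 * k)) : act F (act F x) = x := by
  funext j
  unfold act
  by_cases hj : j ∈ F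
  · simp [hj, partner_partner]
  · simp [hj]

noncomputable def actEquiv (F : Finset (Fin h)) : (Fin h → ZMod (4 * k)) ≃ (Fin h → ZMod (4 * k)) :=
  ⟨act F, act F, act_act F, act_act F⟩

open Classical in
lemma card_fixed (x : Fin h → ZMod (4 * k)) (t : ℝ) :
    ((Finset.univ : Finset (Finset (Fin h))).filter (fun F => t ≤ ip (act F x) ∧ ip (act F x) < t + 1)).card ≤
      h.choose (h / 2) := by
  set F0 : Finset (Fin h) := Finset.univ.filter (fun j => cc (partner (x j)) < cc (x j)) with hF0
  let hi : Fin h → ℝ := fun j => max (cc (x j)) (cc (partner (x j)))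
  let lo : Fin h → ℝ := fun j => min (cc (x j)) (cc (partner (x j)))
  have hval : ∀ F : Finset (Fin h), ∀ j, cc (act F x j) = if j ∈ F ∆ F0 then hi j else lo j := by
    intro F j
    have hne := partner_ne (x j)
    unfold act
    simp only [Finset.mem_symmDiff, hF0, mem_filter, mem_univ, true_and, hi, lo]
    by_cases hj : j ∈ F <;> by_cases hc : cc (partner (x j)) < cc (x j)
    · simp [hj, hc, hc.le]
    · have : cc (x j) ≤ cc (partner (x j)) := not_lt.mp hc
      simp [hj, hc, this]
    · simp [hj, hc, hc.le]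
    · have : cc (x j) ≤ cc (partner (x j)) := not_lt.mp hc
      simp [hj, hc, this]
  have hdiff : ∀ j, lo j + 1 ≤ hi j := by
    intro j
    have := partner_diff (x j)
    simp only [hi, lo]
    rcases le_total (cc (x j)) (cc (partner (x j))) with h | h
    · rw [min_eq_left h, max_eq_right h]
      rw [abs_of_nonpos (by linarith)] at this
      linarith
    · rw [min_eq_right h, max_eq_left h]
      rw [abs_of_nonneg (by linarith)] at this
      linarith
  set 𝒜 := ((Finset.univ : Finset (Finset (Fin h))).filter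
    (fun F => t ≤ ip (act F x) ∧ ip (act F x) < t + 1)) with hA
  have hinj : Function.Injective (fun F : Finset (Fin h) => F ∆ F0) := by
    intro F F' hFF
    exact symmDiff_left_injective F0 hFF
  rw [← Finset.card_image_of_injective 𝒜 hinj]
  have hanti : IsAntichain (· ⊆ ·) ((𝒜.image (fun F => F ∆ F0) : Finset (Finset (Fin h))) : Set (Finset (Fin h))) := by
    intro G1 hG1 G2 hG2 hne hsub
    simp only [Finset.coe_image, Set.mem_image, Finset.mem_coe, hA, mem_filter, mem_univ, true_and] at hG1 hG2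
    obtain ⟨F1, hF1, rfl⟩ := hG1
    obtain ⟨F2, hF2, rfl⟩ := hG2
    obtain ⟨j0, hj02, hj01⟩ : ∃ j, j ∈ F2 ∆ F0 ∧ j ∉ F1 ∆ F0 := by
      by_contra hcon
      push Not at hcon
      exact hne (Finset.Subset.antisymm hsub hcon)
    have h1 : ip (act F1 x) + 1 ≤ ip (act F2 x) := by
      unfold ip
      rw [← Finset.add_sum_erase _ _ (Finset.mem_univ j0), ← Finset.add_sum_erase _ (fun j => cc (act F2 x j)) (Finset.mem_univ j0)]
      have h2 : cc (act F1 x j0) + 1 ≤ cc (act F2 x j0) := by
        rw [hval F1 j0, hval F2 j0, if_neg hj01, if_pos hj02]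
        exact hdiff j0
      have h3 : ∑ j ∈ Finset.univ.erase j0, cc (act F1 x j) ≤ ∑ j ∈ Finset.univ.erase j0, cc (act F2 x j) := by
        refine Finset.sum_le_sum fun j _ => ?_
        rw [hval F1 j, hval F2 j]
        by_cases hj1 : j ∈ F1 ∆ F0
        · rw [if_pos hj1, if_pos (hsub hj1)]
        · rw [if_neg hj1]
          by_cases hj2 : j ∈ F2 ∆ F0
          · rw [if_pos hj2]; have := hdiff j; linarith
          · rw [if_neg hj2]
      linarith
    linarith [hF1.1, hF2.2]
  have := hanti.sperner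
  simpa using this

open Classical in
theorem lo (t : ℝ) :
    (((Finset.univ : Finset (Fin h → ZMod (4 * k))).filter (fun x => t ≤ ip x ∧ ip x < t + 1)).card : ℝ) * 2 ^ h ≤
      ((4 * k : ℕ) : ℝ) ^ h * (h.choose (h / 2) : ℝ) := by
  have h1 : ∀ F : Finset (Fin h),
      ((Finset.univ : Finset (Fin h → ZMod (4 * k))).filter (fun x => t ≤ ip x ∧ ip x < t + 1)).card =
      ∑ x : Fin h → ZMod (4 * k), if t ≤ ip (act F x) ∧ ip (act F x) < t + 1 then 1 else 0 := by
    intro F
    rw [Finset.card_filter]
    exact (Equiv.sum_comp (actEquiv F) (fun x => if t ≤ ip x ∧ ip x < t + 1 then 1 else 0)).symm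
  have h2 : ((Finset.univ : Finset (Fin h → ZMod (4 * k))).filter (fun x => t ≤ ip x ∧ ip x < t + 1)).card * 2 ^ h ≤
      (4 * k) ^ h * h.choose (h / 2) := by
    calc _ = ∑ F : Finset (Fin h), ((Finset.univ : Finset (Fin h → ZMod (4 * k))).filter (fun x => t ≤ ip x ∧ ip x < t + 1)).card := by
          rw [Finset.sum_const, Finset.card_univ, Fintype.card_finset, Fintype.card_fin, smul_eq_mul, mul_comm]
      _ = ∑ F : Finset (Fin h), ∑ x : Fin h → ZMod (4 * k), (if t ≤ ip (act F x) ∧ ip (act F x) < t + 1 then 1 else 0) :=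
          Finset.sum_congr rfl fun F _ => h1 F
      _ = ∑ x : Fin h → ZMod (4 * k), ∑ F : Finset (Fin h), (if t ≤ ip (act F x) ∧ ip (act F x) < t + 1 then 1 else 0) :=
          Finset.sum_comm
      _ ≤ ∑ x : Fin h → ZMod (4 * k), h.choose (h / 2) := by
          refine Finset.sum_le_sum fun x _ => ?_
          rw [← Finset.card_filter]
          exact card_fixed x t
      _ = (4 * k) ^ h * h.choose (h / 2) := by
          rw [Finset.sum_const, Finset.card_univ, smul_eq_mul]
          simp
  exact_mod_cast h2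

/-- covering an interval of integer length -/
theorem lo_interval (t : ℝ) (L : ℕ) :
    (((Finset.univ : Finset (Fin h → ZMod (4 * k))).filter (fun x => t ≤ ip x ∧ ip x < t + L)).card : ℝ) * 2 ^ h ≤
      L * (((4 * k : ℕ) : ℝ) ^ h * (h.choose (h / 2) : ℝ)) := by
  classical
  induction L with
  | zero =>
    have : (Finset.univ : Finset (Fin h → ZMod (4 * k))).filter (fun x => t ≤ ip x ∧ ip x < t + ((0 : ℕ) : ℝ)) = ∅ := by
      rw [Finset.filter_eq_empty_iff]
      intro x _ hx
      push_cast at hx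
      linarith [hx.1, hx.2]
    rw [this]; simp
  | succ L ih =>
    have hsub : (Finset.univ : Finset (Fin h → ZMod (4 * k))).filter (fun x => t ≤ ip x ∧ ip x < t + ((L + 1 : ℕ) : ℝ)) ⊆
        ((Finset.univ : Finset (Fin h → ZMod (4 * k))).filter (fun x => t ≤ ip x ∧ ip x < t + (L : ℝ))) ∪
        ((Finset.univ : Finset (Fin h → ZMod (4 * k))).filter (fun x => t + L ≤ ip x ∧ ip x < (t + L) + 1)) := by
      intro x hx
      simp only [mem_filter, mem_univ, true_and, mem_union] at hx ⊢
      push_cast at hx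
      rcases lt_or_ge (ip x) (t + L) with h1 | h1
      · left; exact ⟨hx.1, h1⟩
      · right; exact ⟨h1, by linarith [hx.2]⟩
    have hc := (Finset.card_le_card hsub).trans (Finset.card_union_le _ _)
    have hc' : (((Finset.univ : Finset (Fin h → ZMod (4 * k))).filter (fun x => t ≤ ip x ∧ ip x < t + ((L + 1 : ℕ) : ℝ))).card : ℝ) ≤
        (((Finset.univ : Finset (Fin h → ZMod (4 * k))).filter (fun x => t ≤ ip x ∧ ip x < t + (L : ℝ))).card : ℝ) +
        (((Finset.univ : Finset (Fin h → ZMod (4 * k))).filter (fun x => t + L ≤ ip x ∧ ip x < (t + L) + 1)).card : ℝ) := by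
      exact_mod_cast hc
    have hl := lo (k := k) (h := h) (t + L)
    have h2 : (0 : ℝ) ≤ 2 ^ h := by positivity
    have h3 := mul_le_mul_of_nonneg_right hc' h2
    push_cast at *
    linarith

end

/-- central binomial coefficients are o(2^n) -/
lemma centralBinom_sq (n : ℕ) : (n.centralBinom) ^ 2 * (2 * n + 1) ≤ 16 ^ n := by
  induction n with
  | zero => simp
  | succ n ih =>
    have h := Nat.succ_mul_centralBinom_succ n
    have h2 : (n + 1) ^ 2 * ((n + 1).centralBinom ^ 2 * (2 * (n + 1) + 1)) ≤ (n + 1) ^ 2 * 16 ^ (n + 1) := by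
      calc (n + 1) ^ 2 * ((n + 1).centralBinom ^ 2 * (2 * (n + 1) + 1))
          = ((n + 1) * (n + 1).centralBinom) ^ 2 * (2 * n + 3) := by ring
        _ = (2 * (2 * n + 1) * n.centralBinom) ^ 2 * (2 * n + 3) := by rw [h]
        _ = (n.centralBinom ^ 2 * (2 * n + 1)) * (4 * (2 * n + 1) * (2 * n + 3)) := by ring
        _ ≤ 16 ^ n * (4 * (2 * n + 1) * (2 * n + 3)) := Nat.mul_le_mul_right _ ih
        _ ≤ 16 ^ n * (16 * (n + 1) ^ 2) := Nat.mul_le_mul_left _ (by nlinarith)
        _ = (n + 1) ^ 2 * 16 ^ (n + 1) := by ring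
    exact Nat.le_of_mul_le_mul_left h2 (by positivity)

end Pool.Agent.Helper221.LO
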