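import Pool.Agent.Helper221.CubeMain

/-!
# The lamplighter permutation group mapped to the norm preserving permutations
-/

namespace Pool.Agent.Helper221.SphereMain

open SqRot Twist PLMaps CubeMaps CubeMain

noncomputable section

variable {n : ℕ}

/-- translation part -/
def wt (g : Equiv.Perm ((Fin n → ℤ) × ℤ)) : Fin n → ℤ := (g (0, 0)).1

/-- lamp part -/
def lam (g : Equiv.Perm ((Fin n → ℤ) × ℤ)) (z : Fin n → ℤ) : ℤ := (g (z, 0)).2

/-- permutations of the form `(z, m) ↦ (z + w, m + f z)` with `f` finitely supported -/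
def Good (g : Equiv.Perm ((Fin n → ℤ) × ℤ)) : Prop :=
  (Function.support (lam g)).Finite ∧ ∀ z m, g (z, m) = (z + wt g, m + lam g z)

lemma Good.of {g : Equiv.Perm ((Fin n → ℤ) × ℤ)} (w : Fin n → ℤ) (f : (Fin n → ℤ) → ℤ)
    (hf : (Function.support f).Finite) (h : ∀ z m, g (z, m) = (z + w, m + f z)) :
    Good g ∧ wt g = w ∧ lam g = f := by
  have h1 : wt g = w := by unfold wt; rw [h]; simp
  have h2 : lam g = f := by ext1 z; unfold lam; rw [h]; simp
  refine ⟨⟨by rw [h2]; exact hf, fun z m => by rw [h1, h2]; exact h z m⟩, h1, h2⟩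

lemma good_mul {g h : Equiv.Perm ((Fin n → ℤ) × ℤ)} (hg : Good g) (hh : Good h) :
    Good (g * h) ∧ wt (g * h) = wt g + wt h ∧
      lam (g * h) = fun z => lam h z + lam g (z + wt h) := by
  have key : ∀ z m, (g * h) (z, m) =
      (z + (wt g + wt h), m + (lam h z + lam g (z + wt h))) := by
    intro z m
    rw [Equiv.Perm.mul_apply, hh.2, hg.2]
    ext1
    · simp only; abel
    · simp only; ring
  refine Good.of _ _ ?_ key
  refine (hh.1.union (hg.1.preimage ((add_left_injective (wt h)).injOn))).subset ?_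
  intro z hz
  rw [Function.mem_support] at hz
  by_contra hcon
  rw [Set.mem_union, not_or] at hcon
  have h1 : lam h z = 0 := by simpa using hcon.1
  have h2 : lam g (z + wt h) = 0 := by simpa using hcon.2
  exact hz (by rw [h1, h2]; rfl)

lemma good_one : Good (1 : Equiv.Perm ((Fin n → ℤ) × ℤ)) ∧
    wt (1 : Equiv.Perm ((Fin n → ℤ) × ℤ)) = 0 ∧ lam (1 : Equiv.Perm ((Fin n → ℤ) × ℤ)) = 0 := by
  refine Good.of 0 0 (by simp) fun z m => by simp

lemma good_inv {g : Equiv.Perm ((Fin n → ℤ) × ℤ)} (hg : Good g) : Good g⁻¹ := by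
  refine (Good.of (-wt g) (fun z => -lam g (z - wt g)) ?_ ?_).1
  · refine (hg.1.preimage ((sub_left_injective (b := wt g)).injOn)).subset ?_
    intro z hz
    rw [Function.mem_support] at hz
    simpa using hz
  · intro z m
    rw [Equiv.Perm.inv_eq_iff_eq, hg.2]
    ext1
    · simp
    · simp [sub_eq_add_neg]

/-- the subgroup of good permutations -/
def goodSub (n : ℕ) : Subgroup (Equiv.Perm ((Fin n → ℤ) × ℤ)) where
  carrier := {g | Good g}
  one_mem' := good_one.1
  mul_mem' hg hh := (good_mul hg hh).1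
  inv_mem' hg := good_inv hg

/-- the real translation length -/
def len (α : Fin n → ℝ) (v : Fin n → ℤ) : ℝ := ∑ i, (v i : ℝ) * α i

lemma len_add (α : Fin n → ℝ) (v w : Fin n → ℤ) : len α (v + w) = len α v + len α w := by
  simp [len, add_mul, Finset.sum_add_distrib]

lemma len_zero (α : Fin n → ℝ) : len α 0 = 0 := by simp [len]

/-- total twisting angle -/
def tot (α : Fin n → ℝ) (c : ℝ) (f : (Fin n → ℤ) → ℤ) (u : ℂ) (r : ℝ) : ℝ :=
  ∑ᶠ z, (f z : ℝ) * sig c (rot (-len α z) u) r

lemma tot_zero (α : Fin n → ℝ) (c : ℝ) : tot α c 0 = 0 := by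
  funext u r
  simp [tot]

lemma supp_aux {f : (Fin n → ℤ) → ℤ} (hf : (Function.support f).Finite) (F : (Fin n → ℤ) → ℝ) :
    (Function.support fun z => (f z : ℝ) * F z).Finite := by
  refine hf.subset fun z hz => ?_
  rw [Function.mem_support] at hz ⊢
  intro h
  exact hz (by rw [h]; simp)

lemma tot_mul {α : Fin n → ℝ} {c : ℝ} {f g : (Fin n → ℤ) → ℤ} (hf : (Function.support f).Finite)
    (hg : (Function.support g).Finite) (w : Fin n → ℤ) (u : ℂ) (r : ℝ) :
    tot α c (fun z => f z + g (z + w)) u r =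
      tot α c f u r + tot α c g (rot (len α w) u) r := by
  unfold tot
  have hg' : (Function.support fun z => g (z + w)).Finite :=
    (hg.preimage ((add_left_injective w).injOn)).subset fun z hz => by simpa using hz
  have h1 : (fun z => (((f z + g (z + w) : ℤ)) : ℝ) * sig c (rot (-len α z) u) r) =
      fun z => (f z : ℝ) * sig c (rot (-len α z) u) r +
        (g (z + w) : ℝ) * sig c (rot (-len α z) u) r := by
    ext1 z; push_cast; ring
  rw [h1, finsum_add_distrib (supp_aux hf _) (supp_aux hg' _)]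
  congr 1
  rw [← finsum_comp_equiv (Equiv.addRight w)
    (f := fun z => (g z : ℝ) * sig c (rot (-len α z) (rot (len α w) u)) r)]
  refine finsum_congr fun z => ?_
  simp only [Equiv.coe_addRight]
  rw [rot_rot, len_add]
  congr 3
  ring

/-- the image of a good permutation -/
def im (α : Fin n → ℝ) (c : ℝ) (g : Equiv.Perm ((Fin n → ℤ) × ℤ)) : presv :=
  tN (len α (wt g)) * aN (tot α c (lam g))

lemma im_mul {α : Fin n → ℝ} {c : ℝ} {g h : Equiv.Perm ((Fin n → ℤ) × ℤ)} (hg : Good g)
    (hh : Good h) : im α c (g * h) = im α c g * im α c h := by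
  obtain ⟨-, h1, h2⟩ := good_mul hg hh
  unfold im
  rw [h1, h2]
  apply Subtype.ext
  ext1 p
  show (rot (len α (wt g + wt h)) p.1,
      rot (tot α c (fun z => lam h z + lam g (z + wt h)) p.1 (sn p.2)) p.2) =
    (rot (len α (wt g)) (rot (len α (wt h)) p.1),
      rot (tot α c (lam g) (rot (len α (wt h)) p.1)
        (sn (rot (tot α c (lam h) p.1 (sn p.2)) p.2))) (rot (tot α c (lam h) p.1 (sn p.2)) p.2))
  rw [rot_rot, len_add, sn_rot, rot_rot, tot_mul hh.1 hg.1]
  rw [add_comm (tot α c (lam h) p.1 (sn p.2))]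

/-- the homomorphism -/
def imHom (α : Fin n → ℝ) (c : ℝ) : goodSub n →* presv :=
  MonoidHom.mk' (fun g => im α c g.1) fun g h => im_mul g.2 h.2

/-- faithfulness -/
theorem faithful2 {α : Fin n → ℝ}
    (hα : ∀ (v : Fin n → ℤ) (k : ℤ), ∑ i, (v i : ℝ) * α i = 8 * k → v = 0)
    {c R : ℝ} (hc : 0 < c) (hcR : c < R) (v : Fin n → ℤ) (f : (Fin n → ℤ) → ℤ)
    (hf : (Function.support f).Finite)
    (h : ∀ u w : ℂ, sn u ≤ R → sn w = R → (tN (len α v) * aN (tot α c f)).1 (u, w) = (u, w)) :
    v = 0 ∧ f = 0 := by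
  classical
  have hR : 0 < R := hc.trans hcR
  have hw : sn (R * gam 0) = R := by rw [sn_mul_real hR.le, sn_gam, mul_one]
  have hne : (R * gam 0 : ℂ) ≠ 0 := by
    intro h0; rw [h0, sn_zero] at hw; exact hR.ne hw
  have hv : v = 0 := by
    have h1 := h (R * gam 0) (R * gam 0) hw.le hw
    have h2 : rot (len α v) (R * gam 0) = R * gam 0 := congrArg Prod.fst h1
    obtain ⟨k, hk⟩ := rot_eq_self hne h2
    exact hα v k hk
  refine ⟨hv, ?_⟩
  have hAinj : ∀ v w : Fin n → ℤ, (∃ k : ℤ, len α v - len α w = 8 * k) → v = w := by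
    rintro v w ⟨k, hk⟩
    have : v - w = 0 := by
      apply hα (v - w) k
      rw [← hk]
      simp only [len, Pi.sub_apply, Int.cast_sub, sub_mul, Finset.sum_sub_distrib]
    exact sub_eq_zero.1 this
  funext z₀
  obtain ⟨u, hu, hpos, hlt, hzero⟩ := exists_point hc hcR
    (hf.toFinset.image (len α)) (β₀ := len α z₀) (by
      intro β hβ
      rw [Finset.mem_image] at hβ
      obtain ⟨p, -, rfl⟩ := hβ
      by_cases hex : ∃ k : ℤ, len α z₀ - len α p = 8 * k
      · exact Or.inl (congrArg (len α) (hAinj _ _ hex).symm)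
      · exact Or.inr fun k hk => hex ⟨k, hk⟩) |(f z₀ : ℝ)|
  have h1 := h u (R * gam 0) hu hw
  have h2 : rot (tot α c f u (sn (R * gam 0))) (R * gam 0) = (R * gam 0 : ℂ) :=
    congrArg Prod.snd h1
  rw [hw] at h2
  obtain ⟨k, hk⟩ := rot_eq_self hne h2
  have h3 : tot α c f u R = (f z₀ : ℝ) * sig c (rot (-len α z₀) u) R := by
    unfold tot
    refine finsum_eq_single _ z₀ fun z hz => ?_
    by_cases hfz : f z = 0
    · rw [hfz]; simp
    · rw [hzero (len α z) (Finset.mem_image.2 ⟨z, by simpa using hfz, rfl⟩) ?_, mul_zero]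
      intro he
      exact hz (hAinj _ _ ⟨0, by rw [he]; simp⟩)
  rw [h3] at hk
  set s := sig c (rot (-len α z₀) u) R
  have h6 : |(8 : ℝ) * k| < 8 := by
    rw [← hk, abs_mul, abs_of_pos hpos]; exact hlt
  have h7 : k = 0 := by
    by_contra hk0
    have : (1 : ℝ) ≤ |(k : ℝ)| := by exact_mod_cast Int.one_le_abs hk0
    rw [abs_mul, abs_of_pos (by norm_num : (0:ℝ) < 8)] at h6
    linarith
  rw [h7] at hk
  have h8 : (f z₀ : ℝ) = 0 := by
    have : (f z₀ : ℝ) * s = 0 := by rw [hk]; simp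
    exact (mul_eq_zero.1 this).resolve_right hpos.ne'
  exact_mod_cast h8

/-- the lamp generator -/
def lampGen (n : ℕ) : Equiv.Perm ((Fin n → ℤ) × ℤ) :=
  Equiv.prodShear (Equiv.refl (Fin n → ℤ))
    (fun w => if w = 0 then Equiv.addRight (1 : ℤ) else Equiv.refl ℤ)

/-- the translation generators -/
def shiftGen (n : ℕ) (i : Fin n) : Equiv.Perm ((Fin n → ℤ) × ℤ) :=
  Equiv.prodCongr (Equiv.addRight (Pi.single i (1 : ℤ) : Fin n → ℤ)) (Equiv.refl ℤ)

lemma good_lamp : Good (lampGen n) ∧ wt (lampGen n) = 0 ∧ lam (lampGen n) = Pi.single 0 1 := by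
  refine Good.of 0 (Pi.single 0 1) ?_ fun z m => ?_
  · exact (Set.finite_singleton (0 : Fin n → ℤ)).subset Pi.support_single_subset
  · unfold lampGen
    rw [Equiv.prodShear_apply]
    by_cases h : z = 0
    · subst h; simp
    · simp [h]

lemma good_shift (i : Fin n) : Good (shiftGen n i) ∧ wt (shiftGen n i) = Pi.single i 1 ∧
    lam (shiftGen n i) = 0 := by
  refine Good.of (Pi.single i 1) 0 (by simp) fun z m => ?_
  unfold shiftGen
  simp

lemma im_lamp (α : Fin n → ℝ) (c : ℝ) : im α c (lampGen n) = aN (sig c) := by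
  unfold im
  rw [good_lamp.2.1, good_lamp.2.2, len_zero]
  have h1 : tN 0 = 1 := Subtype.ext tP_zero
  rw [h1, one_mul]
  congr 1
  funext u r
  unfold tot
  rw [finsum_eq_single _ (0 : Fin n → ℤ)]
  · rw [len_zero, neg_zero, rot_zero]; simp
  · intro z hz
    simp [hz]

lemma im_shift (α : Fin n → ℝ) (c : ℝ) (i : Fin n) : im α c (shiftGen n i) = tN (α i) := by
  unfold im
  rw [(good_shift i).2.1, (good_shift i).2.2, tot_zero]
  have h1 : aN 0 = 1 := Subtype.ext aP_zero
  rw [h1, mul_one]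
  congr 1
  unfold len
  rw [Finset.sum_eq_single i]
  · simp
  · intro j _ hj; simp [hj]
  · intro h; exact (h (Finset.mem_univ i)).elim

/-- the wreath product as a permutation group -/
def ZW (n : ℕ) : Subgroup (Equiv.Perm ((Fin n → ℤ) × ℤ)) :=
  Subgroup.closure (insert (lampGen n) (Set.range fun i : Fin n => shiftGen n i))

lemma ZW_le : ZW n ≤ goodSub n := by
  refine (Subgroup.closure_le _).2 ?_
  rintro g (rfl | ⟨i, rfl⟩)
  · exact good_lamp.1
  · exact (good_shift i).1

/-- piecewise linearity of all elements of the image -/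
lemma CPL_im {α : Fin n → ℝ} (hα : ∀ i, 0 ≤ α i ∧ α i ≤ 1) (c b : ℝ) :
    ∀ g ∈ ZW n, CPL (M c (im α b g).1) := by
  have key : ∀ g ∈ ZW n, CPL (M c (im α b g).1) ∧ CPL (M c (im α b g⁻¹).1) := by
    intro g hg
    unfold ZW at hg
    have hinv : ∀ g, Good g → (im α b g⁻¹).1 = ((im α b g).1)⁻¹ := by
      intro g hg
      have h1 : im α b (1 : Equiv.Perm ((Fin n → ℤ) × ℤ)) = 1 := by
        have := im_mul (α := α) (c := b) good_one.1 (good_one (n := n)).1
        rw [one_mul] at this
        exact left_eq_mul.1 this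
      have h2 := im_mul (α := α) (c := b) (good_inv hg) hg
      rw [inv_mul_cancel, h1] at h2
      have h3 : im α b g⁻¹ = (im α b g)⁻¹ := eq_inv_of_mul_eq_one_left h2.symm
      rw [h3]; rfl
    induction hg using Subgroup.closure_induction with
    | mem g hg =>
      rcases hg with rfl | ⟨i, rfl⟩
      · rw [hinv _ good_lamp.1, im_lamp]
        exact ⟨CPL_aP c b, CPL_aP_inv c b⟩
      · rw [hinv _ (good_shift i).1, im_shift]
        exact ⟨CPL_tP c (hα i).1 (hα i).2, CPL_tP_inv c (hα i).1 (hα i).2⟩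
    | one =>
      have h1 : im α b (1 : Equiv.Perm ((Fin n → ℤ) × ℤ)) = 1 := by
        have := im_mul (α := α) (c := b) good_one.1 (good_one (n := n)).1
        rw [one_mul] at this
        exact left_eq_mul.1 this
      rw [inv_one, h1]
      have h2 : CPL (M c (1 : Equiv.Perm (ℂ × ℂ))) := by
        have : M c (1 : Equiv.Perm (ℂ × ℂ)) = fun x => x := funext fun x => M_one c x
        rw [this]
        exact ⟨IsPL.of_affine (AffineMap.id ℝ _) fun _ => rfl, continuous_id⟩
      exact ⟨h2, h2⟩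
    | mul g h hg hh ihg ihh =>
      have hg' : Good g := ZW_le hg
      have hh' : Good h := ZW_le hh
      rw [mul_inv_rev, im_mul hg' hh', im_mul (good_inv hh') (good_inv hg')]
      have e : ∀ G H : presv, M c (G * H).1 = fun x => M c G.1 (M c H.1 x) :=
        fun G H => funext fun x => M_mul c G.1 H.1 x
      rw [e, e]
      exact ⟨ihg.1.comp ihh.1, ihh.2.comp ihg.2⟩
    | inv g hg ih =>
      rw [inv_inv]
      exact ⟨ih.2, ih.1⟩
  exact fun g hg => (key g hg).1

end

end Pool.Agent.Helper221.SphereMain
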