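import Mathlib

/-!
# The piecewise linear circle action on the plane preserving the sup norm
-/

namespace Pool.Agent.Helper221.SqRot

open Complex

noncomputable section

/-- sup norm on the plane -/
def sn (p : ℂ) : ℝ := max |p.re| |p.im|

/-- arclength parametrisation of the boundary of the square, of period `8` -/
def gam (a : ℝ) : ℂ := I ^ (⌊(a + 1) / 2⌋ : ℤ) * (1 + ((a - 2 * ⌊(a + 1) / 2⌋ : ℝ) : ℂ) * I)

lemma sn_nonneg (p : ℂ) : 0 ≤ sn p := le_max_of_le_left (abs_nonneg _)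

lemma sn_zero : sn 0 = 0 := by simp [sn]

lemma sn_eq_zero {p : ℂ} (h : sn p = 0) : p = 0 := by
  have h1 : |p.re| ≤ 0 := h ▸ le_max_left _ _
  have h2 : |p.im| ≤ 0 := h ▸ le_max_right _ _
  exact Complex.ext (abs_eq_zero.1 (le_antisymm h1 (abs_nonneg _)))
    (abs_eq_zero.1 (le_antisymm h2 (abs_nonneg _)))

lemma sn_mul_real {r : ℝ} (hr : 0 ≤ r) (p : ℂ) : sn (r * p) = r * sn p := by
  simp [sn, abs_mul, abs_of_nonneg hr, mul_max_of_nonneg _ _ hr]

lemma sn_I_mul (p : ℂ) : sn (I * p) = sn p := by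
  simp [sn, max_comm]

lemma sn_zpow_mul (j : ℤ) (p : ℂ) : sn (I ^ j * p) = sn p := by
  induction j using Int.induction_on with
  | zero => simp
  | succ i ih =>
    rw [zpow_add_one₀ I_ne_zero, mul_comm (I ^ (i : ℤ)) I, mul_assoc, sn_I_mul, ih]
  | pred i ih =>
    rw [← sn_I_mul, ← mul_assoc, ← zpow_one_add₀ I_ne_zero]
    rw [show (1 + (-(i:ℤ) - 1)) = -(i:ℤ) by ring, ih]

lemma gam_eq (j : ℤ) {q : ℝ} (h1 : -1 ≤ q) (h2 : q ≤ 1) :
    gam (2 * j + q) = I ^ j * (1 + (q : ℂ) * I) := by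
  rcases eq_or_lt_of_le h2 with h | h
  · have hf : ⌊((2 * j + q : ℝ) + 1) / 2⌋ = j + 1 := by
      rw [Int.floor_eq_iff]; push_cast; constructor <;> linarith
    unfold gam
    rw [hf, zpow_add_one₀ I_ne_zero, h]
    push_cast
    ring_nf
    rw [I_sq]
    ring
  · have hf : ⌊((2 * j + q : ℝ) + 1) / 2⌋ = j := by
      rw [Int.floor_eq_iff]; constructor <;> linarith
    unfold gam
    rw [hf]
    push_cast
    ring_nf

/-- every real number as `2 j + q` with `-1 ≤ q < 1` -/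
lemma exists_jq (a : ℝ) : ∃ (j : ℤ) (q : ℝ), -1 ≤ q ∧ q < 1 ∧ a = 2 * j + q := by
  refine ⟨⌊(a + 1) / 2⌋, a - 2 * ⌊(a + 1) / 2⌋, ?_, ?_, by ring⟩
  · have := Int.floor_le ((a + 1) / 2); linarith
  · have := Int.lt_floor_add_one ((a + 1) / 2); linarith

lemma sn_one_add {q : ℝ} (h1 : -1 ≤ q) (h2 : q ≤ 1) : sn (1 + (q : ℂ) * I) = 1 := by
  simp [sn, abs_le, h1, h2]

lemma sn_gam (a : ℝ) : sn (gam a) = 1 := by
  obtain ⟨j, q, h1, h2, rfl⟩ := exists_jq a
  rw [gam_eq j h1 h2.le, sn_zpow_mul, sn_one_add h1 h2.le]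

lemma I_zpow_four_mul (k : ℤ) : I ^ (4 * k) = 1 := by
  rw [zpow_mul]
  have : (I : ℂ) ^ (4 : ℤ) = 1 := by
    have := I_pow_four
    exact_mod_cast this
  rw [this, one_zpow]

lemma gam_add (a : ℝ) (k : ℤ) : gam (a + 8 * k) = gam a := by
  obtain ⟨j, q, h1, h2, rfl⟩ := exists_jq a
  have : (2 * (j:ℝ) + q + 8 * k) = 2 * ((j + 4 * k : ℤ) : ℝ) + q := by push_cast; ring
  rw [this, gam_eq _ h1 h2.le, gam_eq _ h1 h2.le, zpow_add₀ I_ne_zero, I_zpow_four_mul, mul_one]

lemma zpow_I_cases (m : ℤ) : ∃ k : ℤ, m = 4 * k ∨ m = 4 * k + 1 ∨ m = 4 * k + 2 ∨ m = 4 * k + 3 :=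
  ⟨m / 4, by omega⟩

lemma gam_inj {a b : ℝ} (h : gam a = gam b) : ∃ k : ℤ, a - b = 8 * k := by
  obtain ⟨j, q, h1, h2, rfl⟩ := exists_jq a
  obtain ⟨j', q', h1', h2', rfl⟩ := exists_jq b
  rw [gam_eq _ h1 h2.le, gam_eq _ h1' h2'.le] at h
  have h3 : I ^ (j - j') * (1 + (q : ℂ) * I) = 1 + (q' : ℂ) * I := by
    rw [zpow_sub₀ I_ne_zero, div_mul_eq_mul_div, h, mul_comm, mul_div_assoc,
      div_self (zpow_ne_zero _ I_ne_zero), mul_one]
  obtain ⟨k, hk | hk | hk | hk⟩ := zpow_I_cases (j - j')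
  · rw [hk, I_zpow_four_mul, one_mul] at h3
    have := congrArg Complex.im h3
    simp at this
    refine ⟨k, ?_⟩
    have hk' : (j : ℝ) - j' = 4 * k := by exact_mod_cast hk
    rw [this]; linarith
  · rw [hk, zpow_add₀ I_ne_zero, I_zpow_four_mul, one_mul, zpow_one] at h3
    have hre := congrArg Complex.re h3
    have him := congrArg Complex.im h3
    simp at hre him
    linarith
  · rw [hk, zpow_add₀ I_ne_zero, I_zpow_four_mul, one_mul] at h3
    have e : (I : ℂ) ^ (2 : ℤ) = -1 := by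
      have := I_sq
      exact_mod_cast this
    rw [e] at h3
    have hre := congrArg Complex.re h3
    simp at hre
    linarith
  · rw [hk, zpow_add₀ I_ne_zero, I_zpow_four_mul, one_mul] at h3
    have e : (I : ℂ) ^ (3 : ℤ) = -I := by
      have := I_pow_three
      exact_mod_cast this
    rw [e] at h3
    have hre := congrArg Complex.re h3
    have him := congrArg Complex.im h3
    simp at hre him
    linarith

lemma exists_gam (p : ℂ) : ∃ a : ℝ, p = sn p * gam a := by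
  rcases eq_or_ne p 0 with rfl | hp
  · exact ⟨0, by simp [sn_zero]⟩
  have hr : 0 < sn p := lt_of_le_of_ne (sn_nonneg p) fun h => hp (sn_eq_zero h.symm)
  -- it is enough to treat the case where the real part is the sup norm
  have key : ∀ z : ℂ, z.re = sn p → |z.im| ≤ sn p → ∃ q : ℝ, -1 ≤ q ∧ q ≤ 1 ∧
      z = sn p * (1 + (q : ℂ) * I) := by
    intro z h1 h2
    refine ⟨z.im / sn p, ?_, ?_, ?_⟩
    · rw [le_div_iff₀ hr]; have := (abs_le.1 h2).1; linarith
    · rw [div_le_iff₀ hr]; have := (abs_le.1 h2).2; linarith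
    · apply Complex.ext
      · simp [h1]
      · simp; field_simp
  have main : ∀ j : ℤ, ∀ z : ℂ, p = I ^ j * z → z.re = sn p → |z.im| ≤ sn p →
      ∃ a : ℝ, p = sn p * gam a := by
    intro j z h0 h1 h2
    obtain ⟨q, hq1, hq2, hz⟩ := key z h1 h2
    refine ⟨2 * j + q, ?_⟩
    rw [gam_eq j hq1 hq2]
    calc p = I ^ j * z := h0
      _ = I ^ j * (sn p * (1 + (q : ℂ) * I)) := by rw [← hz]
      _ = _ := by ring
  rcases le_total |p.im| |p.re| with h | h
  · have hs : sn p = |p.re| := max_eq_left h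
    rcases le_total 0 p.re with h' | h'
    · refine main 0 p (by simp) ?_ ?_
      · rw [hs, abs_of_nonneg h']
      · rw [hs]; exact h
    · refine main 2 (-p) ?_ ?_ ?_
      · have e : (I : ℂ) ^ (2 : ℤ) = -1 := by
          have := I_sq
          exact_mod_cast this
        rw [e]; ring
      · rw [hs, abs_of_nonpos h']; simp
      · rw [hs]; simpa using h
  · have hs : sn p = |p.im| := max_eq_right h
    rcases le_total 0 p.im with h' | h'
    · refine main 1 (-I * p) ?_ ?_ ?_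
      · rw [zpow_one, ← mul_assoc]; simp
      · rw [hs, abs_of_nonneg h']; simp
      · rw [hs]; simpa using h
    · refine main 3 (I * p) ?_ ?_ ?_
      · have e : (I : ℂ) ^ (3 : ℤ) = -I := by
          have := I_pow_three
          exact_mod_cast this
        rw [e, ← mul_assoc]; simp
      · rw [hs, abs_of_nonpos h']; simp
      · rw [hs]; simpa using h

/-- the angle -/
def ang (p : ℂ) : ℝ := Classical.choose (exists_gam p)

lemma ang_spec (p : ℂ) : p = sn p * gam (ang p) := Classical.choose_spec (exists_gam p)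

/-- the rotation -/
def rot (θ : ℝ) (p : ℂ) : ℂ := sn p * gam (ang p + θ)

lemma rot_gam (θ : ℝ) {r : ℝ} (hr : 0 ≤ r) (a : ℝ) : rot θ (r * gam a) = r * gam (a + θ) := by
  have hs : sn (r * gam a) = r := by rw [sn_mul_real hr, sn_gam, mul_one]
  unfold rot
  rw [hs]
  rcases eq_or_lt_of_le hr with h | h
  · rw [← h]; simp
  · have h1 := ang_spec (r * gam a)
    rw [hs] at h1
    have h2 : gam a = gam (ang (r * gam a)) := by
      have hr0 : (r : ℂ) ≠ 0 := by exact_mod_cast h.ne'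
      exact mul_left_cancel₀ hr0 h1
    obtain ⟨k, hk⟩ := gam_inj h2
    have : a + θ = ang (r * gam a) + θ + 8 * k := by linarith
    rw [this, gam_add]

lemma sn_rot (θ : ℝ) (p : ℂ) : sn (rot θ p) = sn p := by
  unfold rot
  rw [sn_mul_real (sn_nonneg p), sn_gam, mul_one]

lemma rot_zero (p : ℂ) : rot 0 p = p := by
  unfold rot
  rw [add_zero]; exact (ang_spec p).symm

lemma rot_rot (θ φ : ℝ) (p : ℂ) : rot θ (rot φ p) = rot (θ + φ) p := by
  conv_lhs => rw [show rot φ p = sn p * gam (ang p + φ) from rfl]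
  rw [rot_gam _ (sn_nonneg p)]
  unfold rot
  congr 2; ring

lemma rot_zero_right (θ : ℝ) : rot θ 0 = 0 := by simp [rot, sn_zero]

lemma rot_eq_self {θ : ℝ} {p : ℂ} (hp : p ≠ 0) (h : rot θ p = p) : ∃ k : ℤ, θ = 8 * k := by
  have hr : (sn p : ℂ) ≠ 0 := by
    intro h; exact hp (sn_eq_zero (by exact_mod_cast h))
  have h1 : (sn p : ℂ) * gam (ang p + θ) = sn p * gam (ang p) := by
    rw [← ang_spec p]; exact h
  obtain ⟨k, hk⟩ := gam_inj (mul_left_cancel₀ hr h1)
  exact ⟨k, by linarith⟩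

/-! ### The piecewise linear formula -/

/-- first coordinate of the rotation through arclength `t` -/
def pX (x y t : ℝ) : ℝ :=
  x - min t (min (max (x + y) 0) (max (y + t - x) 0)) +
    min t (min (max (-x - y) 0) (max (t + x - y) 0))

lemma pX_neg (x y t : ℝ) : pX (-x) (-y) t = -pX x y t := by
  unfold pX
  have e1 : -x + -y = -x - y := by ring
  have e2 : -y + t - -x = t + x - y := by ring
  have e3 : - -x - -y = x + y := by ring
  have e4 : t + -x - -y = y + t - x := by ring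
  rw [e1, e2, e3, e4]; ring

/-- rotation through arclength `t`, as a formula -/
def rotF (p : ℂ) (t : ℝ) : ℂ := ⟨pX p.re p.im t, -pX (-p.im) p.re t⟩

lemma rotF_I_mul (p : ℂ) (t : ℝ) : rotF (I * p) t = I * rotF p t := by
  apply Complex.ext
  · simp [rotF]
  · simp only [rotF, mul_re, I_re, zero_mul, I_im, one_mul, zero_sub, mul_im, zero_add]
    rw [pX_neg]; ring

lemma rotF_zpow_mul (j : ℤ) (p : ℂ) (t : ℝ) : rotF (I ^ j * p) t = I ^ j * rotF p t := by
  induction j using Int.induction_on generalizing p with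
  | zero => simp
  | succ i ih =>
    rw [zpow_add_one₀ I_ne_zero, mul_assoc, ih, rotF_I_mul, mul_assoc]
  | pred i ih =>
    have h1 : rotF (I ^ (-(i:ℤ) - 1) * p) t = -I * (I * rotF (I ^ (-(i:ℤ) - 1) * p) t) := by
      rw [← mul_assoc]; simp
    rw [h1, ← rotF_I_mul, ← mul_assoc I, ← zpow_one_add₀ I_ne_zero,
      show (1 + (-(i:ℤ) - 1)) = -(i:ℤ) by ring, ih]
    rw [show (-(i:ℤ)) = 1 + (-(i:ℤ) - 1) by ring, zpow_one_add₀ I_ne_zero]
    rw [show (1 + (-(i:ℤ) - 1) - 1) = (-(i:ℤ) - 1) by ring]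
    rw [← mul_assoc, ← mul_assoc]; simp

lemma pX_base1 {r y t : ℝ} (h1 : -r ≤ y) (h2 : y ≤ r) (ht : 0 ≤ t) (htr : t ≤ r) :
    pX r y t = if y + t ≤ r then r else 2 * r - y - t := by
  unfold pX
  simp only [min_def, max_def]
  split_ifs <;> linarith

lemma pX_base2 {r y t : ℝ} (h1 : -r ≤ y) (h2 : y ≤ r) (ht : 0 ≤ t) (htr : t ≤ r) :
    -pX (-y) r t = if y + t ≤ r then y + t else r := by
  unfold pX
  simp only [min_def, max_def]
  split_ifs <;> linarith

lemma rotF_base {r q t : ℝ} (hr : 0 ≤ r) (h1 : -1 ≤ q) (h2 : q ≤ 1) (ht : 0 ≤ t) (htr : t ≤ r) :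
    rotF (r * (1 + (q : ℂ) * I)) t =
      if r * q + t ≤ r then ⟨r, r * q + t⟩ else ⟨2 * r - r * q - t, r⟩ := by
  have e1 : (r * (1 + (q : ℂ) * I) : ℂ).re = r := by simp
  have e2 : (r * (1 + (q : ℂ) * I) : ℂ).im = r * q := by simp
  have b1 : -r ≤ r * q := by nlinarith
  have b2 : r * q ≤ r := by nlinarith
  unfold rotF
  rw [e1, e2, pX_base1 b1 b2 ht htr, pX_base2 b1 b2 ht htr]
  split_ifs <;> rfl

lemma rotF_gam {r θ : ℝ} (hr : 0 ≤ r) (h0 : 0 ≤ θ) (h1 : θ ≤ 1) (a : ℝ) :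
    rotF (r * gam a) (r * θ) = r * gam (a + θ) := by
  obtain ⟨j, q, hq1, hq2, rfl⟩ := exists_jq a
  rw [gam_eq j hq1 hq2.le, show (r : ℂ) * (I ^ j * (1 + (q : ℂ) * I)) =
    I ^ j * (r * (1 + (q : ℂ) * I)) by ring, rotF_zpow_mul,
    rotF_base hr hq1 hq2.le (mul_nonneg hr h0) (by nlinarith)]
  rcases eq_or_lt_of_le hr with h | h
  · rw [← h]
    simp
    right
    apply Complex.ext <;> simp
  by_cases hc : q + θ ≤ 1
  · have : r * q + r * θ ≤ r := by nlinarith
    rw [if_pos this, add_assoc, gam_eq j (by linarith) hc]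
    have : (⟨r, r * q + r * θ⟩ : ℂ) = r * (1 + ((q + θ : ℝ) : ℂ) * I) := by
      apply Complex.ext
      · simp
      · simp; ring
    rw [this]; ring
  · have : ¬ (r * q + r * θ ≤ r) := by nlinarith
    rw [if_neg this]
    have e : 2 * (j:ℝ) + q + θ = 2 * ((j + 1 : ℤ) : ℝ) + (q + θ - 2) := by push_cast; ring
    rw [e, gam_eq (j + 1) (by linarith) (by linarith), zpow_add_one₀ I_ne_zero]
    have : (⟨2 * r - r * q - r * θ, r⟩ : ℂ) = r * (I * (1 + ((q + θ - 2 : ℝ) : ℂ) * I)) := by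
      apply Complex.ext
      · simp; ring
      · simp
    rw [this]; ring

/-- rotation through arclength `t ≤ sn p` -/
lemma rotF_eq_rot {p : ℂ} {t : ℝ} (h0 : 0 ≤ t) (h1 : t ≤ sn p) : rotF p t = rot (t / sn p) p := by
  rcases eq_or_lt_of_le (sn_nonneg p) with h | h
  · have hp : p = 0 := sn_eq_zero h.symm
    have ht : t = 0 := le_antisymm (h.symm ▸ h1) h0
    subst hp; subst ht
    rw [rot_zero_right]
    apply Complex.ext <;> simp [rotF, pX]
  · have e : t = sn p * (t / sn p) := by field_simp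
    have h2 : rotF (sn p * gam (ang p)) (sn p * (t / sn p)) = sn p * gam (ang p + t / sn p) :=
      rotF_gam (sn_nonneg p) (by positivity) (by rw [div_le_one h]; exact h1) _
    rw [← ang_spec p, ← e] at h2
    exact h2

lemma gam_neg (a : ℝ) : gam (-a) = (starRingEnd ℂ) (gam a) := by
  obtain ⟨j, q, hq1, hq2, rfl⟩ := exists_jq a
  have e : -(2 * (j:ℝ) + q) = 2 * ((-j : ℤ) : ℝ) + (-q) := by push_cast; ring
  rw [e, gam_eq _ (by linarith) (by linarith), gam_eq _ hq1 hq2.le]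
  rw [map_mul, map_zpow₀, conj_I, map_add, map_one, map_mul, conj_ofReal, conj_I]
  have : (-I : ℂ) ^ j = I ^ (-j) := by
    rw [zpow_neg, ← inv_zpow, inv_I]
  rw [this]; push_cast; ring

lemma sn_conj (p : ℂ) : sn ((starRingEnd ℂ) p) = sn p := by simp [sn]

lemma rot_conj (θ : ℝ) (p : ℂ) :
    (starRingEnd ℂ) (rot θ ((starRingEnd ℂ) p)) = rot (-θ) p := by
  obtain ⟨a, ha⟩ := exists_gam p
  have h1 : (starRingEnd ℂ) p = sn p * gam (-a) := by
    conv_lhs => rw [ha]
    rw [map_mul, conj_ofReal, gam_neg]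
  rw [h1, rot_gam _ (sn_nonneg p), map_mul, conj_ofReal, ← gam_neg]
  conv_rhs => rw [ha, rot_gam _ (sn_nonneg p)]
  congr 2; ring

/-- the inverse rotation, as a formula -/
def rotG (p : ℂ) (t : ℝ) : ℂ := (starRingEnd ℂ) (rotF ((starRingEnd ℂ) p) t)

lemma rotG_eq_rot {p : ℂ} {t : ℝ} (h0 : 0 ≤ t) (h1 : t ≤ sn p) :
    rotG p t = rot (-(t / sn p)) p := by
  unfold rotG
  rw [rotF_eq_rot h0 (by rw [sn_conj]; exact h1), sn_conj, rot_conj]

end

end Pool.Agent.Helper221.SqRot
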