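import Pool.Agent.Helper221.LO

set_option autoImplicit false

namespace Pool.Agent.Helper221.Template

open Finset Pool.Agent.Helper221.Circ Pool.Agent.Helper221.Conc Pool.Agent.Helper221.LO

lemma ip_sub {N h : ℕ} [NeZero N] (x y : Fin h → ZMod N) :
    ip (x - y) = ∑ j, (cc (x j) * cc (y j) + ss (x j) * ss (y j)) := by
  unfold ip
  refine Finset.sum_congr rfl fun j _ => ?_
  rw [Pi.sub_apply, cc_sub]

lemma ip_comm {N h : ℕ} [NeZero N] (x y : Fin h → ZMod N) : ip (x - y) = ip (y - x) := by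
  rw [← ip_neg]; congr 1; abel

lemma sum_one {N h : ℕ} [NeZero N] (x : Fin h → ZMod N) :
    ∑ j, (cc (x j) ^ 2 + ss (x j) ^ 2) = (h : ℝ) := by
  simp [cc_sq_add]

lemma tri {N h : ℕ} [NeZero N] (x y z : Fin h → ZMod N) :
    0 ≤ 3 * (h : ℝ) + 2 * (ip (x - y) + ip (y - z) + ip (x - z)) := by
  have h1 : 0 ≤ ∑ j, ((cc (x j) + cc (y j) + cc (z j)) ^ 2 + (ss (x j) + ss (y j) + ss (z j)) ^ 2) :=
    Finset.sum_nonneg fun j _ => by positivity
  have h2 : ∑ j, ((cc (x j) + cc (y j) + cc (z j)) ^ 2 + (ss (x j) + ss (y j) + ss (z j)) ^ 2) =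
      ∑ j, (cc (x j) ^ 2 + ss (x j) ^ 2) + ∑ j, (cc (y j) ^ 2 + ss (y j) ^ 2) + ∑ j, (cc (z j) ^ 2 + ss (z j) ^ 2) +
      2 * (ip (x - y) + ip (y - z) + ip (x - z)) := by
    rw [ip_sub, ip_sub, ip_sub, ← Finset.sum_add_distrib, ← Finset.sum_add_distrib, ← Finset.sum_add_distrib,
      ← Finset.sum_add_distrib, Finset.mul_sum, ← Finset.sum_add_distrib]
    refine Finset.sum_congr rfl fun j _ => ?_
    ring
  rw [h2, sum_one, sum_one, sum_one] at h1
  linarith

lemma quad {N h : ℕ} [NeZero N] (x x' y y' : Fin h → ZMod N) :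
    ip (x - y) + ip (x - y') + ip (x' - y) + ip (x' - y') ≤ 2 * (h : ℝ) + ip (x - x') + ip (y - y') := by
  have h1 : ∑ j, (2 * ((cc (x j) + cc (x' j)) * (cc (y j) + cc (y' j)) + (ss (x j) + ss (x' j)) * (ss (y j) + ss (y' j)))) ≤
      ∑ j, (((cc (x j) + cc (x' j)) ^ 2 + (ss (x j) + ss (x' j)) ^ 2) + ((cc (y j) + cc (y' j)) ^ 2 + (ss (y j) + ss (y' j)) ^ 2)) := by
    refine Finset.sum_le_sum fun j _ => ?_
    nlinarith [sq_nonneg ((cc (x j) + cc (x' j)) - (cc (y j) + cc (y' j))), sq_nonneg ((ss (x j) + ss (x' j)) - (ss (y j) + ss (y' j)))]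
  have h2 : ∑ j, (2 * ((cc (x j) + cc (x' j)) * (cc (y j) + cc (y' j)) + (ss (x j) + ss (x' j)) * (ss (y j) + ss (y' j)))) =
      2 * (ip (x - y) + ip (x - y') + ip (x' - y) + ip (x' - y')) := by
    rw [ip_sub, ip_sub, ip_sub, ip_sub, ← Finset.sum_add_distrib, ← Finset.sum_add_distrib, ← Finset.sum_add_distrib, Finset.mul_sum]
    refine Finset.sum_congr rfl fun j _ => ?_
    ring
  have h3 : ∑ j, (((cc (x j) + cc (x' j)) ^ 2 + (ss (x j) + ss (x' j)) ^ 2) + ((cc (y j) + cc (y' j)) ^ 2 + (ss (y j) + ss (y' j)) ^ 2)) =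
      ∑ j, (cc (x j) ^ 2 + ss (x j) ^ 2) + ∑ j, (cc (x' j) ^ 2 + ss (x' j) ^ 2) + ∑ j, (cc (y j) ^ 2 + ss (y j) ^ 2) +
      ∑ j, (cc (y' j) ^ 2 + ss (y' j) ^ 2) + 2 * (ip (x - x') + ip (y - y')) := by
    rw [ip_sub, ip_sub, ← Finset.sum_add_distrib, ← Finset.sum_add_distrib, ← Finset.sum_add_distrib,
      ← Finset.sum_add_distrib, Finset.mul_sum, ← Finset.sum_add_distrib]
    refine Finset.sum_congr rfl fun j _ => ?_
    ring
  rw [h2, h3, sum_one, sum_one, sum_one, sum_one] at h1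
  linarith

open Classical in
/-- The finite Bollobas-Erdos template. -/
theorem template (ε : ℝ) (hε0 : 0 < ε) (hε1 : ε ≤ 1) :
    ∃ (q : ℕ) (I D : Fin q → Fin q → Prop), 0 < q ∧
      (∀ x y, I x y → I y x) ∧ (∀ x y, D x y → D y x) ∧ (∀ x, ¬ I x x) ∧
      (∀ x y z, I x y → I y z → I x z → False) ∧
      (∀ x x' y y', I x x' → I y y' → D x y → D x y' → D x' y → D x' y' → False) ∧
      (∀ S : Finset (Fin q), ε * q ≤ S.card → ∃ x ∈ S, ∃ y ∈ S, I x y) ∧
      (∀ x, 2 * (Finset.univ.filter (fun y => D x y)).card ≤ q) ∧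
      (∀ x, (1 - ε) * q ≤ 2 * ((Finset.univ.filter (fun y => D x y)).card : ℝ)) ∧
      (∀ x, ((Finset.univ.filter (fun y => I x y)).card : ℝ) ≤ ε * q) := by
  -- parameters
  set D0 : ℕ := ⌈400 / ε⌉₊ with hD0
  have hD0le : 400 / ε ≤ (D0 : ℝ) := Nat.le_ceil _
  have hD0pos : (0 : ℝ) < D0 := lt_of_lt_of_le (by positivity) hD0le
  obtain ⟨p, hp⟩ : ∃ p : ℕ, max ((D0 : ℝ) ^ 2 / ε ^ 2) (D0 : ℝ) ≤ (p : ℝ) := exists_nat_ge _
  have hp1 : (D0 : ℝ) ^ 2 / ε ^ 2 ≤ p := le_trans (le_max_left _ _) hp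
  have hp2 : (D0 : ℝ) ≤ p := le_trans (le_max_right _ _) hp
  have hppos : 0 < p := by
    have : (0 : ℝ) < p := lt_of_lt_of_le hD0pos hp2
    exact_mod_cast this
  set h : ℕ := 2 * p with hh
  haveI : NeZero (4 * h) := ⟨by omega⟩
  have hhalf : h / 2 = p := by omega
  -- the LO fraction
  have hlam : (D0 : ℝ) * (h.choose (h / 2) : ℝ) ≤ ε * 2 ^ h := by
    rw [hhalf, hh, ← Nat.centralBinom_eq_two_mul_choose]
    have h1 := centralBinom_sq p
    have h1' : ((p.centralBinom : ℝ)) ^ 2 * (2 * p + 1) ≤ 16 ^ p := by exact_mod_cast h1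
    have h2 : (D0 : ℝ) ^ 2 ≤ ε ^ 2 * (2 * p + 1) := by
      rw [div_le_iff₀ (by positivity)] at hp1
      nlinarith [sq_nonneg ε, mul_nonneg (sq_nonneg ε) (Nat.cast_nonneg p : (0:ℝ) ≤ p)]
    have h3 : ((D0 : ℝ) * p.centralBinom) ^ 2 ≤ (ε * 2 ^ (2 * p)) ^ 2 := by
      have h4 : ((2 : ℝ) ^ (2 * p)) ^ 2 = 16 ^ p := by
        rw [← pow_mul, show 2 * p * 2 = 4 * p by ring, pow_mul]; norm_num
      rw [mul_pow, mul_pow, h4]
      calc (D0 : ℝ) ^ 2 * (p.centralBinom : ℝ) ^ 2 ≤ (ε ^ 2 * (2 * p + 1)) * (p.centralBinom : ℝ) ^ 2 :=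
            mul_le_mul_of_nonneg_right h2 (sq_nonneg _)
        _ = ε ^ 2 * ((p.centralBinom : ℝ) ^ 2 * (2 * p + 1)) := by ring
        _ ≤ ε ^ 2 * 16 ^ p := mul_le_mul_of_nonneg_left h1' (sq_nonneg _)
    exact le_of_sq_le_sq h3 (by positivity)
  let X := Fin h → ZMod (4 * h)
  have hcardX : Fintype.card X = (4 * h) ^ h := by simp [X]
  set q : ℕ := (4 * h) ^ h with hq
  have hqR : ((q : ℕ) : ℝ) = ((4 * h : ℕ) : ℝ) ^ h := by rw [hq]; push_cast; ring
  have hqpos : 0 < q := by rw [hq]; positivity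
  let e : X ≃ Fin q := (Fintype.equivFin X).trans (finCongr hcardX)
  have hdiv : ∀ (c : ℝ), c * 2 ^ h ≤ D0 * ((((4 * h : ℕ) : ℝ)) ^ h * (h.choose (h / 2) : ℝ)) → c ≤ ε * q := by
    intro c hc
    have h2 : (0 : ℝ) < 2 ^ h := by positivity
    have h3 : c * 2 ^ h ≤ (ε * q) * 2 ^ h := by
      calc c * 2 ^ h ≤ _ := hc
        _ = q * ((D0 : ℝ) * (h.choose (h / 2) : ℝ)) := by rw [hqR]; ring
        _ ≤ q * (ε * 2 ^ h) := mul_le_mul_of_nonneg_left hlam (Nat.cast_nonneg _)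
        _ = (ε * q) * 2 ^ h := by ring
    exact le_of_mul_le_mul_right h3 h2
  -- counting
  have hcount : ∀ (P : ℝ → Prop) (a : Fin q),
      (Finset.univ.filter (fun b : Fin q => P (ip (e.symm a - e.symm b)))).card =
        (Finset.univ.filter (fun u : X => P (ip u))).card := by
    intro P a
    refine Finset.card_bij (fun b _ => e.symm a - e.symm b) ?_ ?_ ?_
    · intro b hb
      simpa using hb
    · intro b _ b' _ hbb
      simpa using hbb
    · intro u hu
      refine ⟨e (e.symm a - u), ?_, ?_⟩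
      · simpa using hu
      · simp
  -- antipode
  let a0 : ZMod (4 * h) := (h : ZMod (4 * h)) + (h : ZMod (4 * h))
  have ha0 : ∀ u : ZMod (4 * h), cc (u + a0) = - cc u := by
    intro u
    have := cc_add_half (k := h) u
    rw [add_assoc] at this
    exact this
  have hanti : ∀ x : X, ip (x + fun _ => a0) = - ip x := by
    intro x
    unfold ip
    rw [← Finset.sum_neg_distrib]
    exact Finset.sum_congr rfl fun j _ => ha0 _
  set d : ℕ := (Finset.univ.filter (fun u : X => (D0 : ℝ) / 2 ≤ ip u)).card with hd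
  have hd' : (Finset.univ.filter (fun u : X => ip u ≤ - ((D0 : ℝ) / 2))).card = d := by
    rw [hd]
    refine Finset.card_bij (fun u _ => u + fun _ => a0) ?_ ?_ ?_
    · intro u hu
      simp only [mem_filter, mem_univ, true_and] at hu ⊢
      rw [hanti]; linarith
    · intro u _ v _ huv
      simpa using huv
    · intro u hu
      refine ⟨u - fun _ => a0, ?_, by simp⟩
      simp only [mem_filter, mem_univ, true_and] at hu ⊢
      have h1 := hanti (u - fun _ => a0)
      rw [sub_add_cancel] at h1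
      linarith
  refine ⟨q, fun a b => ip (e.symm a - e.symm b) < -(h : ℝ) + D0, fun a b => (D0 : ℝ) / 2 ≤ ip (e.symm a - e.symm b),
    hqpos, ?_, ?_, ?_, ?_, ?_, ?_, ?_, ?_, ?_⟩
  · intro a b hab
    rwa [ip_comm]
  · intro a b hab
    rwa [ip_comm]
  · intro a hab
    rw [sub_self, ip_zero] at hab
    have : (h : ℝ) = 2 * p := by rw [hh]; push_cast; ring
    linarith
  · intro a b c hab hbc hac
    have h1 := tri (e.symm a) (e.symm b) (e.symm c)
    have : (h : ℝ) = 2 * p := by rw [hh]; push_cast; ring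
    linarith
  · intro x x' y y' h1 h2 h3 h4 h5 h6
    have := quad (e.symm x) (e.symm x') (e.symm y) (e.symm y')
    linarith
  · intro S hS
    have hS' : ε * (((4 * h : ℕ) : ℝ) ^ h) ≤ ((S.image e.symm).card : ℝ) := by
      rw [Finset.card_image_of_injective _ e.symm.injective, ← hqR]
      exact hS
    have hle : h ≤ (4 * h) ^ 2 := by nlinarith
    obtain ⟨s, hs, s', hs', hss⟩ := conc hle a0 ha0 ε hε0 hε1 D0 hD0le (S.image e.symm) hS'
    rw [Finset.mem_image] at hs hs'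
    obtain ⟨a, ha, rfl⟩ := hs
    obtain ⟨b, hb, rfl⟩ := hs'
    exact ⟨a, ha, b, hb, hss⟩
  · intro a
    rw [hcount (fun r => (D0 : ℝ) / 2 ≤ r) a, ← hd]
    have hdisj : Disjoint (Finset.univ.filter (fun u : X => (D0 : ℝ) / 2 ≤ ip u))
        (Finset.univ.filter (fun u : X => ip u ≤ - ((D0 : ℝ) / 2))) := by
      rw [Finset.disjoint_left]
      intro u hu hu'
      simp only [mem_filter, mem_univ, true_and] at hu hu'
      linarith
    have h1 := Finset.card_union_of_disjoint hdisj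
    rw [hd', ← hd] at h1
    have h2 := Finset.card_le_univ ((Finset.univ.filter (fun u : X => (D0 : ℝ) / 2 ≤ ip u)) ∪
        (Finset.univ.filter (fun u : X => ip u ≤ - ((D0 : ℝ) / 2))))
    rw [hcardX] at h2
    omega
  · intro a
    rw [hcount (fun r => (D0 : ℝ) / 2 ≤ r) a, ← hd]
    have hmid := lo_interval (k := h) (h := h) (-((D0 : ℝ) / 2)) D0
    have hmid' := hdiv _ hmid
    have hcover : (Finset.univ : Finset X) ⊆ (Finset.univ.filter (fun u : X => (D0 : ℝ) / 2 ≤ ip u)) ∪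
        ((Finset.univ.filter (fun u : X => ip u ≤ - ((D0 : ℝ) / 2))) ∪
        (Finset.univ.filter (fun x : X => -((D0 : ℝ) / 2) ≤ ip x ∧ ip x < -((D0 : ℝ) / 2) + D0))) := by
      intro u _
      simp only [mem_union, mem_filter, mem_univ, true_and]
      by_cases h1 : (D0 : ℝ) / 2 ≤ ip u
      · left; exact h1
      · right
        push Not at h1
        by_cases h2 : ip u ≤ - ((D0 : ℝ) / 2)
        · left; exact h2
        · right
          push Not at h2
          exact ⟨h2.le, by linarith⟩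
    have h1 := Finset.card_le_card hcover
    have h2 := h1.trans ((Finset.card_union_le _ _).trans (Nat.add_le_add_left (Finset.card_union_le _ _) _))
    rw [Finset.card_univ, hcardX, hd', ← hd] at h2
    have h3 : (q : ℝ) ≤ (d : ℝ) + ((d : ℝ) + ((Finset.univ.filter (fun x : X => -((D0 : ℝ) / 2) ≤ ip x ∧ ip x < -((D0 : ℝ) / 2) + D0)).card : ℝ)) := by
      exact_mod_cast h2
    linarith
  · intro a
    rw [hcount (fun r => r < -(h : ℝ) + D0) a]
    have hmid := lo_interval (k := h) (h := h) (-(h : ℝ)) D0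
    have hmid' := hdiv _ hmid
    have hsub : (Finset.univ.filter (fun u : X => ip u < -(h : ℝ) + D0)) ⊆
        (Finset.univ.filter (fun x : X => -(h : ℝ) ≤ ip x ∧ ip x < -(h : ℝ) + D0)) := by
      intro u hu
      simp only [mem_filter, mem_univ, true_and] at hu ⊢
      exact ⟨neg_le_ip u, hu⟩
    have h1 : ((Finset.univ.filter (fun u : X => ip u < -(h : ℝ) + D0)).card : ℝ) ≤
        ((Finset.univ.filter (fun x : X => -(h : ℝ) ≤ ip x ∧ ip x < -(h : ℝ) + D0)).card : ℝ) := by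
      exact_mod_cast Finset.card_le_card hsub
    linarith

end Pool.Agent.Helper221.Template
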