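import Pool.Agent.Helper221.SqRot

/-!
# Rotations of the first plane and twists of the second plane
-/

namespace Pool.Agent.Helper221.Twist

open SqRot Filter Topology

noncomputable section

/-- rotation of the first coordinate -/
def tP (β : ℝ) : Equiv.Perm (ℂ × ℂ) where
  toFun p := (rot β p.1, p.2)
  invFun p := (rot (-β) p.1, p.2)
  left_inv p := by simp [rot_rot, rot_zero]
  right_inv p := by simp [rot_rot, rot_zero]

/-- fibrewise rotation of the second coordinate -/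
def aP (Θ : ℂ → ℝ → ℝ) : Equiv.Perm (ℂ × ℂ) where
  toFun p := (p.1, rot (Θ p.1 (sn p.2)) p.2)
  invFun p := (p.1, rot (-Θ p.1 (sn p.2)) p.2)
  left_inv p := by simp [sn_rot, rot_rot, rot_zero]
  right_inv p := by simp [sn_rot, rot_rot, rot_zero]

@[simp] lemma tP_apply (β : ℝ) (p : ℂ × ℂ) : tP β p = (rot β p.1, p.2) := rfl

@[simp] lemma aP_apply (Θ : ℂ → ℝ → ℝ) (p : ℂ × ℂ) :
    aP Θ p = (p.1, rot (Θ p.1 (sn p.2)) p.2) := rfl

lemma tP_mul (β γ : ℝ) : tP β * tP γ = tP (β + γ) := by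
  ext1 p; simp [rot_rot]

lemma aP_mul (Θ Θ' : ℂ → ℝ → ℝ) : aP Θ * aP Θ' = aP (Θ + Θ') := by
  ext1 p; simp [rot_rot, sn_rot]

lemma tP_zero : tP 0 = 1 := by ext1 p; simp [rot_zero]

lemma aP_zero : aP 0 = 1 := by ext1 p; simp [rot_zero]

/-- rotations as a homomorphism -/
def tHom : Multiplicative ℝ →* Equiv.Perm (ℂ × ℂ) where
  toFun β := tP β.toAdd
  map_one' := tP_zero
  map_mul' β γ := (tP_mul _ _).symm

/-- twists as a homomorphism -/
def aHom : Multiplicative (ℂ → ℝ → ℝ) →* Equiv.Perm (ℂ × ℂ) where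
  toFun β := aP β.toAdd
  map_one' := aP_zero
  map_mul' β γ := (aP_mul _ _).symm

lemma tP_inv (β : ℝ) : (tP β)⁻¹ = tP (-β) := by
  rw [inv_eq_iff_mul_eq_one, tP_mul, add_neg_cancel, tP_zero]

lemma aP_inv (Θ : ℂ → ℝ → ℝ) : (aP Θ)⁻¹ = aP (-Θ) := by
  rw [inv_eq_iff_mul_eq_one, aP_mul, add_neg_cancel, aP_zero]

lemma tP_zpow (β : ℝ) (k : ℤ) : tP β ^ k = tP (k * β) := by
  have := map_zpow tHom (Multiplicative.ofAdd β) k
  rw [← ofAdd_zsmul] at this
  simpa [tHom] using this.symm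

lemma aP_zpow (Θ : ℂ → ℝ → ℝ) (k : ℤ) : aP Θ ^ k = aP (k • Θ) := by
  have := map_zpow aHom (Multiplicative.ofAdd Θ) k
  rw [← ofAdd_zsmul] at this
  simpa [aHom] using this.symm

lemma conj_aP (β : ℝ) (Θ : ℂ → ℝ → ℝ) :
    tP β * aP Θ * (tP β)⁻¹ = aP (fun u r => Θ (rot (-β) u) r) := by
  rw [tP_inv]
  ext1 p
  simp [rot_rot, rot_zero]

/-- the subgroup of permutations preserving both sup norms -/
def presv : Subgroup (Equiv.Perm (ℂ × ℂ)) where
  carrier := {G | ∀ p, sn (G p).1 = sn p.1 ∧ sn (G p).2 = sn p.2}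
  one_mem' p := ⟨rfl, rfl⟩
  mul_mem' {G H} hG hH p := by
    rw [Equiv.Perm.mul_apply]
    exact ⟨(hG _).1.trans (hH _).1, (hG _).2.trans (hH _).2⟩
  inv_mem' {G} hG p := by
    have := hG (G⁻¹ p)
    have e : G (G⁻¹ p) = p := by simp
    rw [e] at this
    exact ⟨this.1.symm, this.2.symm⟩

lemma tP_mem (β : ℝ) : tP β ∈ presv := fun p => ⟨sn_rot _ _, rfl⟩

lemma aP_mem (Θ : ℂ → ℝ → ℝ) : aP Θ ∈ presv := fun p => ⟨rfl, sn_rot _ _⟩

section res

variable {D : Type} (π : D → ℂ × ℂ) (hinj : Function.Injective π)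
  (hsat : ∀ x q, sn q.1 = sn (π x).1 → sn q.2 = sn (π x).2 → ∃ y, π y = q)

include hsat in
lemma exists_res (G : presv) (x : D) : ∃ y, π y = G.1 (π x) :=
  hsat x _ (G.2 _).1 (G.2 _).2

/-- transport of the norm preserving permutations to a type with coordinates -/
def resFun (G : presv) (x : D) : D := Classical.choose (exists_res π hsat G x)

lemma resFun_spec (G : presv) (x : D) : π (resFun π hsat G x) = G.1 (π x) :=
  Classical.choose_spec (exists_res π hsat G x)

/-- transport as a homomorphism -/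
def res : presv →* Equiv.Perm D where
  toFun G :=
    { toFun := resFun π hsat G
      invFun := resFun π hsat G⁻¹
      left_inv := fun x => hinj (by rw [resFun_spec π hsat, resFun_spec π hsat]; simp)
      right_inv := fun x => hinj (by rw [resFun_spec π hsat, resFun_spec π hsat]; simp) }
  map_one' := by
    ext1 x
    apply hinj
    show π (resFun π hsat 1 x) = π x
    rw [resFun_spec π hsat]; rfl
  map_mul' G H := by
    ext1 x
    apply hinj
    show π (resFun π hsat (G * H) x) = π (resFun π hsat G (resFun π hsat H x))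
    rw [resFun_spec π hsat, resFun_spec π hsat, resFun_spec π hsat]; rfl

lemma res_spec (G : presv) (x : D) : π (res π hinj hsat G x) = G.1 (π x) :=
  resFun_spec π hsat G x

end res

/-! ### The twisting angle and independence -/

/-- the bump -/
def bump (c : ℝ) (u : ℂ) : ℝ := max 0 (u.re - |u.im| - c)

/-- the twisting angle -/
def sig (c : ℝ) (u : ℂ) (r : ℝ) : ℝ := min r (bump c u) / r

lemma gam_zero : gam 0 = 1 := by
  have := gam_eq 0 (q := 0) (by norm_num) (by norm_num)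
  simpa using this

lemma gam_lt {δ : ℝ} (h : ∀ k : ℤ, δ ≠ 8 * k) : (gam δ).re - |(gam δ).im| < 1 := by
  have h1 := sn_gam δ
  have h2 : (gam δ).re ≤ 1 := h1 ▸ (le_abs_self _).trans (le_max_left _ _)
  have h3 := abs_nonneg (gam δ).im
  by_contra hcon
  rw [not_lt] at hcon
  have h4 : (gam δ).re = 1 := by linarith
  have h5 : |(gam δ).im| = 0 := by linarith
  have h6 : gam δ = gam 0 := by
    rw [gam_zero]
    exact Complex.ext (by simpa using h4) (by simpa using abs_eq_zero.1 h5)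
  obtain ⟨k, hk⟩ := gam_inj h6
  exact h k (by linarith)

/-- the key independence statement: on a circle slightly larger than `c` the supports of
finitely many different rotates of the bump are disjoint -/
lemma exists_point {c R : ℝ} (hc : 0 < c) (hcR : c < R) (s : Finset ℝ) {β₀ : ℝ}
    (hs : ∀ β ∈ s, β = β₀ ∨ ∀ k : ℤ, β₀ - β ≠ 8 * k) (K : ℝ) :
    ∃ u : ℂ, sn u ≤ R ∧ 0 < sig c (rot (-β₀) u) R ∧ K * sig c (rot (-β₀) u) R < 8 ∧
      ∀ β ∈ s, β ≠ β₀ → sig c (rot (-β) u) R = 0 := by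
  have hR : 0 < R := hc.trans hcR
  have ev1 : ∀ᶠ ρ in 𝓝[>] c, ρ ≤ R := by
    filter_upwards [Ioc_mem_nhdsGT hcR] with ρ hρ using hρ.2
  have ev2 : ∀ᶠ ρ in 𝓝[>] c, c < ρ := self_mem_nhdsWithin
  have ev3 : ∀ᶠ ρ in 𝓝[>] c, K * ((ρ - c) / R) < 8 := by
    have h1 : Tendsto (fun ρ : ℝ => K * ((ρ - c) / R)) (𝓝[>] c) (𝓝 (K * ((c - c) / R))) :=
      tendsto_nhdsWithin_of_tendsto_nhds ((by fun_prop : Continuous fun ρ : ℝ => K * ((ρ - c) / R)).tendsto c)
    exact h1.eventually_lt_const (by simp)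
  have ev4 : ∀ᶠ ρ in 𝓝[>] c, ∀ β ∈ s, β ≠ β₀ →
      ρ * ((gam (β₀ - β)).re - |(gam (β₀ - β)).im|) - c < 0 := by
    rw [Filter.eventually_all_finset]
    intro β hβ
    by_cases hne : β = β₀
    · exact Eventually.of_forall fun _ h => (h hne).elim
    · have h0 := gam_lt ((hs β hβ).resolve_left hne)
      set g := (gam (β₀ - β)).re - |(gam (β₀ - β)).im|
      have h1 : Tendsto (fun ρ : ℝ => ρ * g - c) (𝓝[>] c) (𝓝 (c * g - c)) :=
        tendsto_nhdsWithin_of_tendsto_nhds ((by fun_prop : Continuous fun ρ : ℝ => ρ * g - c).tendsto c)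
      have h2 : c * g - c < 0 := by nlinarith
      filter_upwards [h1.eventually_lt_const h2] with ρ hρ _ using hρ
  obtain ⟨ρ, h1, h2, h3, h4⟩ := (ev1.and (ev2.and (ev3.and ev4))).exists
  have hρ : 0 ≤ ρ := (hc.trans h2).le
  have hval : ∀ δ : ℝ, bump c (ρ * gam δ) = max 0 (ρ * ((gam δ).re - |(gam δ).im|) - c) := by
    intro δ
    unfold bump
    simp [abs_mul, abs_of_nonneg hρ, mul_sub]
  have hrot : ∀ β, rot (-β) (ρ * gam β₀) = ρ * gam (β₀ - β) := fun β => by
    rw [rot_gam _ hρ]; rfl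
  have hb0 : sig c (rot (-β₀) (ρ * gam β₀)) R = (ρ - c) / R := by
    rw [hrot, sub_self]
    unfold sig
    rw [hval, gam_zero]
    simp only [Complex.one_re, Complex.one_im, abs_zero, sub_zero, mul_one]
    rw [max_eq_right (by linarith), min_eq_right (by linarith)]
  refine ⟨ρ * gam β₀, ?_, ?_, ?_, ?_⟩
  · rw [sn_mul_real hρ, sn_gam, mul_one]; exact h1
  · rw [hb0]; exact div_pos (by linarith) hR
  · rw [hb0]; exact h3
  · intro β hβ hne
    rw [hrot]
    unfold sig
    rw [hval, max_eq_left (h4 β hβ hne).le, min_eq_right hR.le, zero_div]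

/-! ### Rationally independent angles -/

lemma exists_alpha (n : ℕ) : ∃ α : Fin n → ℝ, (∀ i, 0 ≤ α i ∧ α i ≤ 1) ∧
    ∀ (v : Fin n → ℤ) (k : ℤ), ∑ i, (v i : ℝ) * α i = 8 * k → v = 0 := by
  obtain ⟨x, hx0, hx1, hx⟩ : ∃ x : ℝ, 0 ≤ x ∧ x ≤ 1 ∧ Transcendental ℤ x := by
    have h := transcendental_liouvilleNumber (m := 2) le_rfl
    set y := liouvilleNumber ((2 : ℕ) : ℝ)
    refine ⟨Int.fract y, Int.fract_nonneg y, (Int.fract_lt_one y).le, fun halg => h ?_⟩
    have e : y = Int.fract y + (⌊y⌋ : ℤ) := (Int.fract_add_floor y).symm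
    rw [e]
    exact halg.add (isAlgebraic_int ⌊y⌋)
  refine ⟨fun i => x ^ ((i : ℕ) + 1), fun i => ⟨by positivity, pow_le_one₀ hx0 hx1⟩, ?_⟩
  intro v k hk
  rw [transcendental_iff] at hx
  have hP := hx ((∑ i : Fin n, Polynomial.monomial ((i : ℕ) + 1) (v i)) - Polynomial.C (8 * k)) ?_
  · ext i
    have hc := congrArg (fun P => Polynomial.coeff P ((i : ℕ) + 1)) hP
    simp only [Polynomial.coeff_sub, Polynomial.finsetSum_coeff, Polynomial.coeff_monomial,
      Polynomial.coeff_zero] at hc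
    rw [Finset.sum_eq_single i] at hc
    · rw [if_pos rfl, Polynomial.coeff_C, if_neg (Nat.succ_ne_zero _)] at hc
      simpa using hc
    · intro j _ hj
      rw [if_neg]
      intro h
      exact hj (Fin.ext (by omega))
    · intro h; exact (h (Finset.mem_univ i)).elim
  · rw [map_sub, map_sum]
    simp only [Polynomial.aeval_monomial, Polynomial.aeval_C]
    simp
    linarith

end

end Pool.Agent.Helper221.Twist
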